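import Mathlib

/-!
# Mutual preference graphs: definitions and the deterministic part
-/

set_option autoImplicit false

namespace Pool.Agent.X139.MG

open Finset
open scoped Classical

/-- the number of vertices `l ≠ i` such that the edge `{i,l}` is cheaper than `{i,j}` -/
noncomputable def rank {n : ℕ} (ω : Sym2 (Fin n) → ℝ) (i j : Fin n) : ℕ :=
  (univ.filter (fun l : Fin n => l ≠ i ∧ ω s(i, l) < ω s(i, j))).card

/-- the vertex `i` prefers the edge `{i,j}`: fewer than `k` of the edges at `i` are cheaper -/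
def Pref {n : ℕ} (k : ℕ) (ω : Sym2 (Fin n) → ℝ) (i j : Fin n) : Prop := rank ω i j < k

/-- the graph of the edges which are preferred by both their end points -/
def mutualGraph {n : ℕ} (k : ℕ) (ω : Sym2 (Fin n) → ℝ) : SimpleGraph (Fin n) where
  Adj i j := i ≠ j ∧ Pref k ω i j ∧ Pref k ω j i
  symm := ⟨fun _ _ h => ⟨h.1.symm, h.2.2, h.2.1⟩⟩
  loopless := ⟨fun _ h => h.1 rfl⟩

/-- at least `k` elements have fewer than `k` smaller ones -/
lemma top_card {α : Type*} (A : Finset α) (f : α → ℝ) (k : ℕ) (hk : k ≤ A.card) :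
    k ≤ (A.filter (fun j => (A.filter (fun l => f l < f j)).card < k)).card := by
  by_contra hc
  push Not at hc
  set T := A.filter (fun j => (A.filter (fun l => f l < f j)).card < k) with hT
  have hTA : T ⊆ A := filter_subset _ _
  have hne : (A \ T).Nonempty := by
    rw [← card_pos, card_sdiff_of_subset hTA]
    omega
  obtain ⟨j, hj, hmin⟩ := exists_min_image (A \ T) f hne
  rw [mem_sdiff] at hj
  apply hj.2
  rw [hT, mem_filter]
  refine ⟨hj.1, lt_of_le_of_lt (card_le_card ?_) hc⟩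
  intro l hl
  rw [mem_filter] at hl
  by_contra hlT
  have := hmin l (mem_sdiff.2 ⟨hl.1, hlT⟩)
  linarith [hl.2]

variable {n : ℕ}

/-- degree in the threshold graph -/
noncomputable def deg0 (ω : Sym2 (Fin n) → ℝ) (y : ℝ) (i : Fin n) : ℕ :=
  (univ.filter (fun l : Fin n => l ≠ i ∧ ω s(i, l) ≤ y)).card

/-- a graph on a nonempty finite set which is not connected has a small closed set -/
lemma exists_closed (G : SimpleGraph (Fin n)) (hn : 0 < n) (h : ¬ G.Connected) :
    ∃ S : Finset (Fin n), S.Nonempty ∧ 2 * S.card ≤ n ∧ ∀ i ∈ S, ∀ j, j ∉ S → ¬ G.Adj i j := by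
  have : Nonempty (Fin n) := ⟨⟨0, hn⟩⟩
  have h1 : ¬ G.Preconnected := fun hp => h ⟨hp⟩
  unfold SimpleGraph.Preconnected at h1
  push Not at h1
  obtain ⟨u, v, huv⟩ := h1
  set C : Finset (Fin n) := univ.filter (fun w => G.Reachable u w) with hC
  have hcl : ∀ i ∈ C, ∀ j, j ∉ C → ¬ G.Adj i j := by
    intro i hi j hj hij
    apply hj
    rw [hC, mem_filter] at hi ⊢
    exact ⟨mem_univ _, hi.2.trans hij.reachable⟩
  have hu : u ∈ C := by rw [hC, mem_filter]; exact ⟨mem_univ _, SimpleGraph.Reachable.refl u⟩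
  have hv : v ∉ C := by rw [hC, mem_filter]; exact fun h => huv h.2
  by_cases h2 : 2 * C.card ≤ n
  · exact ⟨C, ⟨u, hu⟩, h2, hcl⟩
  · refine ⟨Cᶜ, ⟨v, mem_compl.2 hv⟩, ?_, ?_⟩
    · rw [card_compl, Fintype.card_fin]
      omega
    · intro i hi j hj hij
      rw [mem_compl] at hi
      rw [mem_compl, not_not] at hj
      exact hcl j hj i hi hij.symm

theorem det_up (k m0 D M R : ℕ) (ω : Sym2 (Fin n) → ℝ) (y : ℝ) (hn : 0 < n)
    (h0 : ∀ v, deg0 ω y v ≤ D)
    (h1 : ∀ S : Finset (Fin n), S.Nonempty → 2 * S.card ≤ n →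
      M * S.card < ((S ×ˢ Sᶜ).filter (fun q : Fin n × Fin n => ω s(q.1, q.2) ≤ y)).card)
    (h2 : ∀ v, (univ.filter (fun b : Fin n => b ≠ v ∧ ω s(v, b) ≤ y ∧ k < deg0 ω y b)).card ≤ m0)
    (hR : D ≤ R * (k - m0)) (hM : (1 + R) * m0 ≤ M) :
    (mutualGraph k ω).Connected := by
  by_contra hcon
  obtain ⟨S, hSne, hS2, hcl⟩ := exists_closed _ hn hcon
  -- two good adjacent vertices
  have pref_of : ∀ i j : Fin n, i ≠ j → ω s(i, j) ≤ y → deg0 ω y i ≤ k → Pref k ω i j := by
    intro i j hij hy hd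
    unfold Pref
    refine lt_of_lt_of_le ?_ hd
    unfold rank deg0
    apply card_lt_card
    rw [ssubset_iff_of_subset]
    · refine ⟨j, ?_, ?_⟩
      · rw [mem_filter]; exact ⟨mem_univ _, hij.symm, hy⟩
      · rw [mem_filter]; exact fun h => lt_irrefl _ h.2.2
    · intro l hl
      rw [mem_filter] at hl ⊢
      exact ⟨mem_univ _, hl.2.1, hl.2.2.le.trans hy⟩
  have sw : ∀ i j : Fin n, ω s(i, j) = ω s(j, i) := fun i j => by rw [Sym2.eq_swap]
  set Sb := S.filter (fun i => k < deg0 ω y i) with hSb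
  -- first count
  have c1 : ((S ×ˢ Sᶜ).filter (fun q : Fin n × Fin n => ω s(q.1, q.2) ≤ y)).card ≤
      m0 * S.card + D * Sb.card := by
    have e : ((S ×ˢ Sᶜ).filter (fun q : Fin n × Fin n => ω s(q.1, q.2) ≤ y)).card =
        ∑ i ∈ S, (Sᶜ.filter (fun j => ω s(i, j) ≤ y)).card := by
      rw [card_filter, sum_product]
      refine sum_congr rfl fun i _ => ?_
      rw [card_filter]
    rw [e]
    have e2 : m0 * S.card + D * Sb.card =
        ∑ i ∈ S, (m0 + if k < deg0 ω y i then D else 0) := by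
      rw [sum_add_distrib, sum_const, smul_eq_mul, mul_comm, ← sum_filter, sum_const, smul_eq_mul,
        mul_comm D]
    rw [e2]
    apply sum_le_sum
    intro i hi
    by_cases hb : k < deg0 ω y i
    · rw [if_pos hb]
      refine le_trans ?_ (Nat.le_add_left _ _)
      refine le_trans (card_le_card ?_) (h0 i)
      intro l hl
      rw [mem_filter, mem_compl] at hl
      rw [mem_filter]
      exact ⟨mem_univ _, fun h => hl.1 (h ▸ hi), hl.2⟩
    · rw [if_neg hb, add_zero]
      refine le_trans (card_le_card ?_) (h2 i)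
      intro l hl
      rw [mem_filter, mem_compl] at hl
      have hli : l ≠ i := fun h => hl.1 (h ▸ hi)
      rw [mem_filter]
      refine ⟨mem_univ _, hli, hl.2, ?_⟩
      by_contra hk
      push Not at hk hb
      exact hcl i hi l hl.1 ⟨hli.symm, pref_of i l hli.symm hl.2 hb,
        pref_of l i hli (by rw [sw]; exact hl.2) hk⟩
  -- second count
  have c2 : Sb.card * (k - m0) ≤ m0 * S.card := by
    have e := Finset.sum_card_bipartiteAbove_eq_sum_card_bipartiteBelow
      (s := Sb) (t := S) (fun i j : Fin n => i ≠ j ∧ ω s(i, j) ≤ y)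
    have lo : Sb.card * (k - m0) ≤ ∑ i ∈ Sb, (S.bipartiteAbove
        (fun i j : Fin n => i ≠ j ∧ ω s(i, j) ≤ y) i).card := by
      rw [← smul_eq_mul, ← sum_const]
      apply sum_le_sum
      intro i hi
      rw [hSb, mem_filter] at hi
      set A := univ.filter (fun l : Fin n => l ≠ i ∧ ω s(i, l) ≤ y) with hA
      have hAc : k ≤ A.card := hi.2.le
      have ht := top_card A (fun l => ω s(i, l)) k hAc
      set T := A.filter (fun j => (A.filter (fun l => ω s(i, l) < ω s(i, j))).card < k) with hT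
      have hTp : ∀ j ∈ T, Pref k ω i j := by
        intro j hj
        rw [hT, mem_filter, hA, mem_filter] at hj
        unfold Pref rank
        refine lt_of_le_of_lt (card_le_card ?_) hj.2
        intro l hl
        rw [mem_filter] at hl
        rw [mem_filter, mem_filter]
        exact ⟨⟨mem_univ _, hl.2.1, hl.2.2.le.trans hj.1.2.2⟩, hl.2.2⟩
      set Bd := univ.filter (fun b : Fin n => b ≠ i ∧ ω s(i, b) ≤ y ∧ k < deg0 ω y b) with hBd
      have hsub : T \ Bd ⊆ S.bipartiteAbove (fun i j : Fin n => i ≠ j ∧ ω s(i, j) ≤ y) i := by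
        intro j hj
        rw [mem_sdiff] at hj
        have hjT := hj.1
        rw [hT, mem_filter, hA, mem_filter] at hjT
        rw [mem_bipartiteAbove]
        refine ⟨?_, hjT.1.2.1.symm, hjT.1.2.2⟩
        by_contra hjS
        have hg : deg0 ω y j ≤ k := by
          by_contra hk
          push Not at hk
          exact hj.2 (by rw [hBd, mem_filter]; exact ⟨mem_univ _, hjT.1.2.1, hjT.1.2.2, hk⟩)
        exact hcl i hi.1 j hjS ⟨hjT.1.2.1.symm, hTp j hj.1,
          pref_of j i hjT.1.2.1 (by rw [sw]; exact hjT.1.2.2) hg⟩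
      have := card_le_card hsub
      have h3 := le_card_sdiff Bd T
      have h4 := h2 i
      rw [← hBd] at h4
      omega
    have hi : ∑ j ∈ S, (Sb.bipartiteBelow (fun i j : Fin n => i ≠ j ∧ ω s(i, j) ≤ y) j).card ≤
        m0 * S.card := by
      rw [mul_comm, ← smul_eq_mul, ← sum_const]
      apply sum_le_sum
      intro j _
      refine le_trans (card_le_card ?_) (h2 j)
      intro l hl
      rw [mem_bipartiteBelow, hSb, mem_filter] at hl
      rw [mem_filter]
      exact ⟨mem_univ _, hl.2.1, by rw [sw]; exact hl.2.2, hl.1.2⟩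
    exact lo.trans (e.le.trans hi)
  have c3 : D * Sb.card ≤ R * m0 * S.card := by
    calc D * Sb.card ≤ R * (k - m0) * Sb.card := Nat.mul_le_mul_right _ hR
      _ = R * (Sb.card * (k - m0)) := by ring
      _ ≤ R * (m0 * S.card) := Nat.mul_le_mul_left _ c2
      _ = R * m0 * S.card := by ring
  have c4 := h1 S hSne hS2
  have c5 : (1 + R) * m0 * S.card ≤ M * S.card := Nat.mul_le_mul_right _ hM
  have c6 : (1 + R) * m0 * S.card = m0 * S.card + R * m0 * S.card := by ring
  omega

theorem det_low (k : ℕ) (ω : Sym2 (Fin n) → ℝ) (y y2 : ℝ) (hn : 2 ≤ n) (i : Fin n)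
    (hi : ∀ l, l ≠ i → y < ω s(i, l))
    (h1 : k ≤ (univ.filter (fun l : Fin n => l ≠ i ∧ (y < ω s(i, l) ∧ ω s(i, l) ≤ y2))).card)
    (h2 : ∀ j, j ≠ i → ω s(i, j) ≤ y2 →
      k ≤ (univ.filter (fun l : Fin n => (l ≠ i ∧ l ≠ j) ∧ ω s(j, l) ≤ y)).card) :
    ¬ (mutualGraph k ω).Connected := by
  intro hcon
  have hno : ∀ j, ¬ (mutualGraph k ω).Adj i j := by
    rintro j ⟨hij, hp1, hp2⟩
    unfold Pref rank at hp1 hp2
    by_cases hy : ω s(i, j) ≤ y2
    · have := h2 j hij.symm hy
      have h3 : (univ.filter (fun l : Fin n => (l ≠ i ∧ l ≠ j) ∧ ω s(j, l) ≤ y)).card ≤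
          (univ.filter (fun l : Fin n => l ≠ j ∧ ω s(j, l) < ω s(j, i))).card := by
        apply card_le_card
        intro l hl
        rw [mem_filter] at hl ⊢
        refine ⟨mem_univ _, hl.2.1.2, lt_of_le_of_lt hl.2.2 ?_⟩
        rw [Sym2.eq_swap]
        exact hi j hij.symm
      omega
    · push Not at hy
      have h3 : (univ.filter (fun l : Fin n => l ≠ i ∧ (y < ω s(i, l) ∧ ω s(i, l) ≤ y2))).card ≤
          (univ.filter (fun l : Fin n => l ≠ i ∧ ω s(i, l) < ω s(i, j))).card := by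
        apply card_le_card
        intro l hl
        rw [mem_filter] at hl ⊢
        exact ⟨mem_univ _, hl.2.1, lt_of_le_of_lt hl.2.2.2 hy⟩
      omega
  have : Nontrivial (Fin n) := Fin.nontrivial_iff_two_le.2 hn
  obtain ⟨j, hj⟩ := hcon.preconnected.exists_adj_of_nontrivial i
  exact hno j hj

end Pool.Agent.X139.MG
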