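import Mathlib

/-!
# Expectations over finitely many independent labels
-/

set_option autoImplicit false

namespace Pool.Agent.X139.MG

open Finset MeasureTheory ProbabilityTheory
open scoped Classical

/-- expectation over independent labels with weights `w` -/
noncomputable def EE {ι : Type*} [Fintype ι] (w : Fin 3 → ℝ) (F : (ι → Fin 3) → ℝ) : ℝ :=
  ∑ x : ι → Fin 3, (∏ e, w (x e)) * F x

section
variable {ι : Type*} [Fintype ι] {w : Fin 3 → ℝ}

lemma EE_mono (hw : ∀ a, 0 ≤ w a) {F G : (ι → Fin 3) → ℝ} (h : ∀ x, F x ≤ G x) :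
    EE w F ≤ EE w G :=
  sum_le_sum fun x _ => mul_le_mul_of_nonneg_left (h x) (prod_nonneg fun _ _ => hw _)

lemma EE_nonneg (hw : ∀ a, 0 ≤ w a) {F : (ι → Fin 3) → ℝ} (h : ∀ x, 0 ≤ F x) :
    0 ≤ EE w F :=
  sum_nonneg fun x _ => mul_nonneg (prod_nonneg fun e _ => hw _) (h x)

lemma EE_sum {κ : Type*} (s : Finset κ) (F : κ → (ι → Fin 3) → ℝ) :
    EE w (fun x => ∑ i ∈ s, F i x) = ∑ i ∈ s, EE w (F i) := by
  unfold EE
  rw [sum_comm]
  refine sum_congr rfl fun x _ => ?_
  rw [mul_sum]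

lemma EE_add (F G : (ι → Fin 3) → ℝ) :
    EE w (fun x => F x + G x) = EE w F + EE w G := by
  unfold EE
  rw [← sum_add_distrib]
  refine sum_congr rfl fun x _ => ?_
  rw [mul_add]

lemma EE_const_mul (c : ℝ) (F : (ι → Fin 3) → ℝ) :
    EE w (fun x => c * F x) = c * EE w F := by
  unfold EE
  rw [mul_sum]
  refine sum_congr rfl fun x _ => ?_
  ring

lemma EE_prod (g : ι → Fin 3 → ℝ) :
    EE w (fun x => ∏ e, g e (x e)) = ∏ e, ∑ a, w a * g e a := by
  unfold EE
  rw [prod_univ_sum, Fintype.piFinset_univ]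
  refine sum_congr rfl fun x _ => ?_
  rw [← prod_mul_distrib]

lemma EE_prodOn (hw1 : ∑ a, w a = 1) (F : Finset ι) (g : ι → Fin 3 → ℝ) :
    EE w (fun x => ∏ e ∈ F, g e (x e)) = ∏ e ∈ F, ∑ a, w a * g e a := by
  have h := EE_prod (w := w) (fun e a => if e ∈ F then g e a else 1)
  have e1 : (fun x : ι → Fin 3 => ∏ e, (fun e a => if e ∈ F then g e a else (1 : ℝ)) e (x e)) =
      fun x => ∏ e ∈ F, g e (x e) := by
    funext x
    show ∏ e, (if e ∈ F then g e (x e) else (1 : ℝ)) = _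
    rw [prod_ite_mem, univ_inter]
  rw [e1] at h
  have e2 : ∏ e ∈ F, ∑ a, w a * g e a = ∏ e, if e ∈ F then ∑ a, w a * g e a else 1 := by
    rw [prod_ite_mem, univ_inter]
  rw [h, e2]
  refine prod_congr rfl fun e _ => ?_
  by_cases he : e ∈ F
  · simp only [if_pos he]
  · simp only [if_neg he, mul_one, hw1]

lemma EE_one (hw1 : ∑ a, w a = 1) : EE (ι := ι) w (fun _ => 1) = 1 := by
  have h := EE_prodOn (ι := ι) hw1 ∅ (fun _ _ => 1)
  simpa using h

/-- constant factor functions on two disjoint sets -/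
lemma EE_two (hw1 : ∑ a, w a = 1) (F₁ F₂ : Finset ι) (hd : Disjoint F₁ F₂) (g₁ g₂ : Fin 3 → ℝ) :
    EE w (fun x => (∏ e ∈ F₁, g₁ (x e)) * ∏ e ∈ F₂, g₂ (x e)) =
      (∑ a, w a * g₁ a) ^ F₁.card * (∑ a, w a * g₂ a) ^ F₂.card := by
  have h := EE_prodOn (w := w) hw1 (F₁ ∪ F₂) (fun e a => if e ∈ F₁ then g₁ a else g₂ a)
  have e1 : (fun x : ι → Fin 3 => ∏ e ∈ F₁ ∪ F₂,
      (fun e a => if e ∈ F₁ then g₁ a else g₂ a) e (x e)) =
      fun x => (∏ e ∈ F₁, g₁ (x e)) * ∏ e ∈ F₂, g₂ (x e) := by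
    funext x
    rw [prod_union hd]
    congr 1
    · exact prod_congr rfl fun e he => by simp only [if_pos he]
    · refine prod_congr rfl fun e he => ?_
      have : e ∉ F₁ := fun h => disjoint_left.1 hd h he
      simp only [if_neg this]
  rw [e1] at h
  rw [h, prod_union hd]
  congr 1
  · rw [prod_congr rfl (g := fun _ => ∑ a, w a * g₁ a), prod_const]
    intro e he
    simp only [if_pos he]
  · rw [prod_congr rfl (g := fun _ => ∑ a, w a * g₂ a), prod_const]
    intro e he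
    have : e ∉ F₁ := fun h => disjoint_left.1 hd h he
    simp only [if_neg this]

lemma EE_one' (hw1 : ∑ a, w a = 1) (F₁ : Finset ι) (g₁ : Fin 3 → ℝ) :
    EE w (fun x => ∏ e ∈ F₁, g₁ (x e)) = (∑ a, w a * g₁ a) ^ F₁.card := by
  have h := EE_two (w := w) hw1 F₁ ∅ (disjoint_empty_right _) g₁ g₁
  simpa using h

/-- three disjoint sets -/
lemma EE_three (hw1 : ∑ a, w a = 1) (F₁ F₂ F₃ : Finset ι) (hd : Disjoint F₁ F₂)
    (hd13 : Disjoint F₁ F₃) (hd23 : Disjoint F₂ F₃) (g₁ g₂ g₃ : Fin 3 → ℝ) :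
    EE w (fun x => (∏ e ∈ F₁, g₁ (x e)) * (∏ e ∈ F₂, g₂ (x e)) * ∏ e ∈ F₃, g₃ (x e)) =
      (∑ a, w a * g₁ a) ^ F₁.card * (∑ a, w a * g₂ a) ^ F₂.card * (∑ a, w a * g₃ a) ^ F₃.card := by
  have hd' : Disjoint (F₁ ∪ F₂) F₃ := disjoint_union_left.2 ⟨hd13, hd23⟩
  have h := EE_prodOn (w := w) hw1 (F₁ ∪ F₂ ∪ F₃)
    (fun e a => if e ∈ F₁ then g₁ a else if e ∈ F₂ then g₂ a else g₃ a)
  have n2 : ∀ e ∈ F₂, e ∉ F₁ := fun e he h => disjoint_left.1 hd h he
  have n3 : ∀ e ∈ F₃, e ∉ F₁ := fun e he h =>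
    disjoint_left.1 hd' (mem_union_left _ h) he
  have n3' : ∀ e ∈ F₃, e ∉ F₂ := fun e he h =>
    disjoint_left.1 hd' (mem_union_right _ h) he
  have e1 : (fun x : ι → Fin 3 => ∏ e ∈ F₁ ∪ F₂ ∪ F₃,
      (fun e a => if e ∈ F₁ then g₁ a else if e ∈ F₂ then g₂ a else g₃ a) e (x e)) =
      fun x => (∏ e ∈ F₁, g₁ (x e)) * (∏ e ∈ F₂, g₂ (x e)) * ∏ e ∈ F₃, g₃ (x e) := by
    funext x
    rw [prod_union hd', prod_union hd]
    congr 1
    · congr 1
      · exact prod_congr rfl fun e he => by simp only [if_pos he]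
      · exact prod_congr rfl fun e he => by simp only [if_neg (n2 e he), if_pos he]
    · exact prod_congr rfl fun e he => by simp only [if_neg (n3 e he), if_neg (n3' e he)]
  rw [e1] at h
  rw [h, prod_union hd', prod_union hd]
  congr 1
  · congr 1
    · rw [prod_congr rfl (g := fun _ => ∑ a, w a * g₁ a), prod_const]
      intro e he
      simp only [if_pos he]
    · rw [prod_congr rfl (g := fun _ => ∑ a, w a * g₂ a), prod_const]
      intro e he
      simp only [if_neg (n2 e he), if_pos he]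
  · rw [prod_congr rfl (g := fun _ => ∑ a, w a * g₃ a), prod_const]
    intro e he
    simp only [if_neg (n3 e he), if_neg (n3' e he)]

end

/-! ### the link with the product measure -/

/-- the label of a cost -/
noncomputable def lab (y y2 c : ℝ) : Fin 3 := if c ≤ y then 0 else if c ≤ y2 then 1 else 2

lemma lab_zero {y y2 c : ℝ} : lab y y2 c = 0 ↔ c ≤ y := by
  unfold lab
  split_ifs with h1 h2 <;> simp [h1]

lemma lab_one {y y2 c : ℝ} : lab y y2 c = 1 ↔ y < c ∧ c ≤ y2 := by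
  unfold lab
  split_ifs with h1 h2
  · simp [h1]
  · simp [not_le.1 h1, h2]
  · simp [h2]

lemma lab_two {y y2 c : ℝ} : lab y y2 c = 2 ↔ y < c ∧ y2 < c := by
  unfold lab
  split_ifs with h1 h2
  · simp [not_lt.2 h1]
  · simp [not_lt.2 h2]
  · simp [not_le.1 h1, not_le.1 h2]

lemma lab_meas (y y2 : ℝ) (a : Fin 3) : MeasurableSet {c : ℝ | lab y y2 c = a} := by
  fin_cases a
  · show MeasurableSet {c : ℝ | lab y y2 c = 0}
    simp only [lab_zero]
    exact measurableSet_Iic
  · show MeasurableSet {c : ℝ | lab y y2 c = 1}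
    simp only [lab_one]
    exact measurableSet_Ioc
  · show MeasurableSet {c : ℝ | lab y y2 c = 2}
    simp only [lab_two]
    exact measurableSet_Ioi.inter measurableSet_Ioi

/-- the weights of the labels -/
noncomputable def labw (ρ : Measure ℝ) (y y2 : ℝ) (a : Fin 3) : ℝ := ρ.real {c : ℝ | lab y y2 c = a}

lemma labw_nonneg (ρ : Measure ℝ) (y y2 : ℝ) (a : Fin 3) : 0 ≤ labw ρ y y2 a := measureReal_nonneg

lemma link {ι : Type*} [Fintype ι] (ρ : Measure ℝ) [IsProbabilityMeasure ρ] (y y2 : ℝ)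
    (A : (ι → Fin 3) → Prop) :
    (Measure.pi (fun _ : ι => ρ)).real {ω | A (fun e => lab y y2 (ω e))} =
      EE (labw ρ y y2) (fun x => if A x then 1 else 0) := by
  have e1 : {ω : ι → ℝ | A (fun e => lab y y2 (ω e))} =
      ⋃ x ∈ (univ : Finset (ι → Fin 3)).filter A,
        Set.pi Set.univ (fun e => {c : ℝ | lab y y2 c = x e}) := by
    ext ω
    simp only [Set.mem_ofPred_eq, Set.mem_iUnion, mem_filter, mem_univ, true_and, Set.mem_pi,
      Set.mem_univ, forall_const, exists_prop]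
    constructor
    · intro h
      exact ⟨_, h, fun e => rfl⟩
    · rintro ⟨x, hx, h⟩
      have : (fun e => lab y y2 (ω e)) = x := funext h
      rw [this]
      exact hx
  rw [e1, measureReal_biUnion_finset]
  · unfold EE
    rw [sum_filter]
    refine sum_congr rfl fun x _ => ?_
    show _ = (∏ e, labw ρ y y2 (x e)) * (if A x then 1 else 0)
    split_ifs
    · rw [mul_one]
      unfold Measure.real
      rw [Measure.pi_pi, ENNReal.toReal_prod]
      rfl
    · rw [mul_zero]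
  · intro x _ x' _ hne
    rw [Function.onFun, Set.disjoint_left]
    intro ω h h'
    apply hne
    funext e
    have h1 := h e (Set.mem_univ e)
    have h2 := h' e (Set.mem_univ e)
    simp only [Set.mem_ofPred_eq] at h1 h2
    rw [← h1, ← h2]
  · intro x _
    exact MeasurableSet.pi Set.countable_univ fun e _ => lab_meas y y2 (x e)

lemma labw_sum (ρ : Measure ℝ) [IsProbabilityMeasure ρ] (y y2 : ℝ) :
    ∑ a, labw ρ y y2 a = 1 := by
  have h := measureReal_biUnion_finset (μ := ρ) (s := (univ : Finset (Fin 3)))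
    (f := fun a => {c : ℝ | lab y y2 c = a}) (by
      intro a _ b _ hab
      rw [Function.onFun, Set.disjoint_left]
      intro c h1 h2
      simp only [Set.mem_ofPred_eq] at h1 h2
      exact hab (h1.symm.trans h2)) (fun a _ => lab_meas y y2 a)
  have e : (⋃ a ∈ (univ : Finset (Fin 3)), {c : ℝ | lab y y2 c = a}) = Set.univ := by
    ext c
    simp
  rw [e, probReal_univ] at h
  exact h.symm

lemma labw_zero (ρ : Measure ℝ) (y y2 : ℝ) : labw ρ y y2 0 = ρ.real (Set.Iic y) := by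
  unfold labw
  congr 1
  ext c
  simp [lab_zero]

lemma labw_zero_one (ρ : Measure ℝ) [IsProbabilityMeasure ρ] (y y2 : ℝ) (h : y ≤ y2) :
    labw ρ y y2 0 + labw ρ y y2 1 = ρ.real (Set.Iic y2) := by
  unfold labw
  rw [← measureReal_union _ (lab_meas y y2 1)]
  · congr 1
    ext c
    simp only [Set.mem_union, Set.mem_ofPred_eq, lab_zero, lab_one, Set.mem_Iic]
    constructor
    · rintro (h1 | h1)
      · exact h1.trans h
      · exact h1.2
    · intro h1
      by_cases h2 : c ≤ y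
      · exact Or.inl h2
      · exact Or.inr ⟨not_le.1 h2, h1⟩
  · rw [Set.disjoint_left]
    intro c h1 h2
    simp only [Set.mem_ofPred_eq] at h1 h2
    rw [h1] at h2
    exact absurd h2 (by decide)

/-- thresholds with prescribed weights -/
lemma exists_threshold {r : ℝ} (hr : 0 < r) (p : ℝ) (hp : 0 ≤ p) (hp1 : p < 1) :
    (expMeasure r).real (Set.Iic (-Real.log (1 - p) / r)) = p := by
  have := isProbabilityMeasure_expMeasure hr
  rw [← cdf_eq_real, cdf_expMeasure_eq hr]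
  have h1 : Real.log (1 - p) ≤ 0 := Real.log_nonpos (by linarith) (by linarith)
  have h2 : 0 ≤ -Real.log (1 - p) / r := div_nonneg (by linarith) hr.le
  rw [if_pos h2]
  have h3 : -(r * (-Real.log (1 - p) / r)) = Real.log (1 - p) := by field_simp
  rw [h3, Real.exp_log (by linarith)]
  ring

end Pool.Agent.X139.MG
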