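import Pool.Agent.X139.MG.Up

/-!
# Lower part, finite estimates
-/

set_option autoImplicit false

namespace Pool.Agent.X139.MG

open Finset MeasureTheory ProbabilityTheory
open scoped Classical

variable {n : ℕ} {w : Fin 3 → ℝ}

/-- no label `0` at `i` -/
def Iso (x : Sym2 (Fin n) → Fin 3) (i : Fin n) : Prop := ∀ l, l ≠ i → x s(i, l) ≠ 0

/-- number of labels `1` at `i` -/
noncomputable def c1 (x : Sym2 (Fin n) → Fin 3) (i : Fin n) : ℕ :=
  ((univ.erase i).filter (fun l : Fin n => x s(i, l) = 1)).card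

/-- number of labels `0` at `j`, without the edge to `i` -/
noncomputable def dl (x : Sym2 (Fin n) → Fin 3) (i j : Fin n) : ℕ :=
  (((univ.erase i).erase j).filter (fun l : Fin n => x s(j, l) = 0)).card

/-- the good event of the lower part -/
def GoodL (k : ℕ) (x : Sym2 (Fin n) → Fin 3) : Prop :=
  ∃ i, Iso x i ∧ k ≤ c1 x i ∧ ∀ j, j ≠ i → x s(i, j) = 1 → k ≤ dl x i j

noncomputable def hA (a : Fin 3) : ℝ := if a = 0 then 0 else 1
noncomputable def hB (c : ℝ) (a : Fin 3) : ℝ := if a = 0 then 0 else if a = 1 then c else 1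
noncomputable def hC (a : Fin 3) : ℝ := if a = 1 then 1 else 0

lemma hA_nonneg (a : Fin 3) : 0 ≤ hA a := by unfold hA; split_ifs <;> norm_num
lemma hA_le (a : Fin 3) : hA a ≤ 1 := by unfold hA; split_ifs <;> norm_num
lemma hC_nonneg (a : Fin 3) : 0 ≤ hC a := by unfold hC; split_ifs <;> norm_num
lemma hB_nonneg {c : ℝ} (hc : 0 ≤ c) (a : Fin 3) : 0 ≤ hB c a := by
  unfold hB; split_ifs <;> first | exact hc | norm_num
lemma g0_nonneg {c : ℝ} (hc : 0 ≤ c) (a : Fin 3) : 0 ≤ g0 c a := by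
  unfold g0; split_ifs <;> first | exact hc | norm_num

lemma sum_hA (hw1 : ∑ a, w a = 1) : ∑ a, w a * hA a = 1 - w 0 := by
  rw [Fin.sum_univ_three] at hw1 ⊢
  have h1 : (1 : Fin 3) ≠ 0 := by decide
  have h2 : (2 : Fin 3) ≠ 0 := by decide
  unfold hA
  rw [if_pos rfl, if_neg h1, if_neg h2]
  linarith

lemma sum_hB (hw1 : ∑ a, w a = 1) (c : ℝ) : ∑ a, w a * hB c a = 1 - w 0 - w 1 * (1 - c) := by
  rw [Fin.sum_univ_three] at hw1 ⊢
  have h1 : (1 : Fin 3) ≠ 0 := by decide
  have h2 : (2 : Fin 3) ≠ 0 := by decide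
  have h3 : (2 : Fin 3) ≠ 1 := by decide
  unfold hB
  rw [if_pos rfl, if_neg h1, if_neg h2, if_pos rfl, if_neg h3]
  linarith

lemma sum_hC : ∑ a, w a * hC a = w 1 := by
  rw [Fin.sum_univ_three]
  have h1 : (0 : Fin 3) ≠ 1 := by decide
  have h3 : (2 : Fin 3) ≠ 1 := by decide
  unfold hC
  rw [if_neg h1, if_pos rfl, if_neg h3]
  ring

/-- the indicator of `Iso` -/
noncomputable def X (x : Sym2 (Fin n) → Fin 3) (i : Fin n) : ℝ :=
  ∏ e ∈ star i (univ.erase i), hA (x e)

lemma X_nonneg (x : Sym2 (Fin n) → Fin 3) (i : Fin n) : 0 ≤ X x i :=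
  prod_nonneg fun _ _ => hA_nonneg _

lemma X_of_iso {x : Sym2 (Fin n) → Fin 3} {i : Fin n} (h : Iso x i) : X x i = 1 := by
  unfold X
  rw [star_prod]
  apply prod_eq_one
  intro l hl
  rw [mem_erase] at hl
  unfold hA
  rw [if_neg (h l hl.1)]

lemma X_of_not {x : Sym2 (Fin n) → Fin 3} {i : Fin n} (h : ¬ Iso x i) : X x i = 0 := by
  unfold Iso at h
  push Not at h
  obtain ⟨l, hl, h0⟩ := h
  unfold X
  rw [star_prod]
  apply prod_eq_zero (i := l) (by rw [mem_erase]; exact ⟨hl, mem_univ _⟩)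
  unfold hA
  rw [if_pos h0]

lemma EE_X (hw1 : ∑ a, w a = 1) (i : Fin n) :
    EE w (fun x => X x i) = (1 - w 0) ^ (n - 1) := by
  unfold X
  rw [EE_one' hw1, sum_hA hw1, star_card, card_erase_of_mem (mem_univ _), card_univ,
    Fintype.card_fin]

lemma two_card {i j : Fin n} (hij : i ≠ j) : ((univ.erase i).erase j : Finset (Fin n)).card = n - 2 := by
  rw [card_erase_of_mem (by rw [mem_erase]; exact ⟨hij.symm, mem_univ _⟩),
    card_erase_of_mem (mem_univ _), card_univ, Fintype.card_fin]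
  rfl

lemma EE_XX (hw : ∀ a, 0 ≤ w a) (hw1 : ∑ a, w a = 1) {i j : Fin n} (hij : i ≠ j) :
    EE w (fun x => X x i * X x j) ≤ (1 - w 0) ^ (n - 1) * (1 - w 0) ^ (n - 2) := by
  have hd : Disjoint (star i (univ.erase i)) (star j ((univ.erase i).erase j)) := by
    rw [disjoint_left]
    intro e he he'
    unfold star at he he'
    rw [mem_image] at he he'
    obtain ⟨b, hb, rfl⟩ := he
    obtain ⟨c, hc, hq'⟩ := he'
    rw [mem_erase, mem_erase] at hc
    rcases Sym2.eq_iff.1 hq' with ⟨h3, h4⟩ | ⟨h3, h4⟩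
    · exact hij h3.symm
    · exact hc.2.1 h4
  have h1 : ∀ x : Sym2 (Fin n) → Fin 3, X x i * X x j ≤
      (∏ e ∈ star i (univ.erase i), hA (x e)) *
        ∏ e ∈ star j ((univ.erase i).erase j), hA (x e) := by
    intro x
    apply mul_le_mul_of_nonneg_left _ (X_nonneg x i)
    unfold X
    rw [star_prod, star_prod]
    refine prod_le_prod_of_subset_of_le_one ?_ (fun l _ => hA_nonneg _) (fun l _ _ => hA_le _)
    intro l hl
    rw [mem_erase, mem_erase] at hl
    rw [mem_erase]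
    exact ⟨hl.1, mem_univ _⟩
  refine (EE_mono hw h1).trans ?_
  rw [EE_two hw1 _ _ hd, sum_hA hw1, star_card, star_card, two_card hij,
    card_erase_of_mem (mem_univ _), card_univ, Fintype.card_fin]

lemma star_hB (x : Sym2 (Fin n) → Fin 3) (i : Fin n) :
    (∏ e ∈ star i (univ.erase i), hA (x e)) * Real.exp (-(c1 x i : ℝ)) =
      ∏ e ∈ star i (univ.erase i), hB (Real.exp (-1)) (x e) := by
  have h1 : Real.exp (-(c1 x i : ℝ)) =
      ∏ l ∈ univ.erase i, if x s(i, l) = 1 then Real.exp (-1) else 1 := by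
    rw [prod_pow_count, ← Real.exp_nat_mul]
    unfold c1
    congr 1
    ring
  rw [h1, star_prod, star_prod, ← prod_mul_distrib]
  refine prod_congr rfl fun l _ => ?_
  unfold hA hB
  split_ifs <;> simp_all

/-- first kind of failure at `i` -/
lemma EE_Y1 (hw : ∀ a, 0 ≤ w a) (hw1 : ∑ a, w a = 1) (i : Fin n) (k : ℕ) :
    EE w (fun x => X x i * (if c1 x i < k then 1 else 0)) ≤
      (1 - w 0) ^ (n - 1) * Real.exp (k - w 1 * (1 - Real.exp (-1)) * ((n - 1 : ℕ) : ℝ)) := by
  have h1 : ∀ x : Sym2 (Fin n) → Fin 3, X x i * (if c1 x i < k then (1 : ℝ) else 0) ≤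
      Real.exp k * ∏ e ∈ star i (univ.erase i), hB (Real.exp (-1)) (x e) := by
    intro x
    rw [← star_hB]
    have h2 : (if c1 x i < k then (1 : ℝ) else 0) ≤ Real.exp (k + -(c1 x i : ℝ)) := by
      apply ite_le_exp
      intro h
      have : (c1 x i : ℝ) < k := by exact_mod_cast h
      linarith
    rw [Real.exp_add] at h2
    calc X x i * (if c1 x i < k then (1 : ℝ) else 0)
        ≤ X x i * (Real.exp k * Real.exp (-(c1 x i : ℝ))) :=
          mul_le_mul_of_nonneg_left h2 (X_nonneg x i)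
      _ = _ := by unfold X; ring
  refine (EE_mono hw h1).trans ?_
  rw [EE_const_mul, EE_one' hw1, sum_hB hw1, star_card, card_erase_of_mem (mem_univ _), card_univ,
    Fintype.card_fin, sub_eq_add_neg (k : ℝ), Real.exp_add]
  have he0 := Real.exp_pos (-1)
  have he1 : Real.exp (-1) ≤ 1 := Real.exp_le_one_iff.2 (by norm_num)
  have h00 := hw 0
  have h01 := hw 1
  have h02 := hw 2
  have hs := hw1
  rw [Fin.sum_univ_three] at hs
  set u := w 1 * (1 - Real.exp (-1)) with hu
  have hu0 : 0 ≤ u := mul_nonneg h01 (by linarith)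
  have hu1 : u ≤ w 1 := by rw [hu]; nlinarith
  have h3 : (1 - w 0 - u) ^ (n - 1) ≤ (1 - w 0) ^ (n - 1) * Real.exp (-u * ((n - 1 : ℕ) : ℝ)) := by
    calc (1 - w 0 - u) ^ (n - 1) ≤ ((1 - w 0) * (1 + -u)) ^ (n - 1) := by
          apply pow_le_pow_left₀ (by linarith)
          nlinarith
      _ = (1 - w 0) ^ (n - 1) * (1 + -u) ^ (n - 1) := mul_pow _ _ _
      _ ≤ _ := by
          apply mul_le_mul_of_nonneg_left _ (pow_nonneg (by linarith) _)
          exact pow_le_exp (by linarith) _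
  calc Real.exp k * (1 - w 0 - u) ^ (n - 1)
      ≤ Real.exp k * ((1 - w 0) ^ (n - 1) * Real.exp (-u * ((n - 1 : ℕ) : ℝ))) :=
        mul_le_mul_of_nonneg_left h3 (Real.exp_pos _).le
    _ = _ := by
        have : -u * ((n - 1 : ℕ) : ℝ) = -(u * ((n - 1 : ℕ) : ℝ)) := by ring
        rw [this]
        ring

/-- second kind of failure at `i` -/
lemma EE_Y2 (hw : ∀ a, 0 ≤ w a) (hw1 : ∑ a, w a = 1) {i j : Fin n} (hij : i ≠ j) (k : ℕ) (t : ℝ)
    (ht : 0 ≤ t) :
    EE w (fun x => X x i * (if x s(i, j) = 1 ∧ dl x i j < k then 1 else 0)) ≤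
      (1 - w 0) ^ (n - 2) * w 1 *
        Real.exp (t * k - w 0 * (1 - Real.exp (-t)) * ((n - 2 : ℕ) : ℝ)) := by
  set T : Finset (Fin n) := (univ.erase i).erase j with hT
  have hTc : T.card = n - 2 := two_card hij
  have hd : Disjoint (star i T) (star i {j}) := by
    rw [disjoint_left]
    intro e he he'
    unfold star at he he'
    rw [mem_image] at he he'
    obtain ⟨b, hb, rfl⟩ := he
    obtain ⟨c, hc, hq'⟩ := he'
    rw [hT, mem_erase] at hb
    rw [mem_singleton] at hc
    exact hb.1 ((Sym2.congr_right.1 hq').symm.trans hc)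
  have hdj : ∀ A : Finset (Fin n), Disjoint (star i A) (star j T) := by
    intro A
    rw [disjoint_left]
    intro e he he'
    unfold star at he he'
    rw [mem_image] at he he'
    obtain ⟨b, hb, rfl⟩ := he
    obtain ⟨c, hc, hq'⟩ := he'
    rw [hT, mem_erase, mem_erase] at hc
    rcases Sym2.eq_iff.1 hq' with ⟨h3, h4⟩ | ⟨h3, h4⟩
    · exact hij h3.symm
    · exact hc.2.1 h4
  have h1 : ∀ x : Sym2 (Fin n) → Fin 3,
      X x i * (if x s(i, j) = 1 ∧ dl x i j < k then (1 : ℝ) else 0) ≤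
      Real.exp (t * k) * ((∏ e ∈ star i T, hA (x e)) * (∏ e ∈ star i {j}, hC (x e)) *
        ∏ e ∈ star j T, g0 (Real.exp (-t)) (x e)) := by
    intro x
    have hP1 : 0 ≤ ∏ e ∈ star i T, hA (x e) := prod_nonneg fun _ _ => hA_nonneg _
    have hP2 : 0 ≤ ∏ e ∈ star i {j}, hC (x e) := prod_nonneg fun _ _ => hC_nonneg _
    have hP3 : 0 ≤ ∏ e ∈ star j T, g0 (Real.exp (-t)) (x e) :=
      prod_nonneg fun _ _ => g0_nonneg (Real.exp_pos _).le _
    by_cases h : x s(i, j) = 1 ∧ dl x i j < k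
    · rw [if_pos h, mul_one]
      have e1 : ∏ e ∈ star i {j}, hC (x e) = 1 := by
        rw [star_prod, prod_singleton]
        unfold hC
        rw [if_pos h.1]
      have e2 : X x i ≤ ∏ e ∈ star i T, hA (x e) := by
        unfold X
        rw [star_prod, star_prod]
        refine prod_le_prod_of_subset_of_le_one ?_ (fun l _ => hA_nonneg _) (fun l _ _ => hA_le _)
        exact erase_subset _ _
      have e3 : 1 ≤ Real.exp (t * k) * ∏ e ∈ star j T, g0 (Real.exp (-t)) (x e) := by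
        rw [star_g0, ← Real.exp_add]
        apply Real.one_le_exp
        have : (((T.filter (fun l => x s(j, l) = 0)).card : ℕ) : ℝ) ≤ k := by
          have := h.2
          unfold dl at this
          exact_mod_cast this.le
        nlinarith
      rw [e1, mul_one]
      calc X x i ≤ (∏ e ∈ star i T, hA (x e)) * 1 := by rw [mul_one]; exact e2
        _ ≤ (∏ e ∈ star i T, hA (x e)) *
            (Real.exp (t * k) * ∏ e ∈ star j T, g0 (Real.exp (-t)) (x e)) :=
            mul_le_mul_of_nonneg_left e3 hP1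
        _ = _ := by ring
    · rw [if_neg h, mul_zero]
      exact mul_nonneg (Real.exp_pos _).le (mul_nonneg (mul_nonneg hP1 hP2) hP3)
  refine (EE_mono hw h1).trans ?_
  rw [EE_const_mul, EE_three hw1 (star i T) (star i {j}) (star j T) hd (hdj T) (hdj {j}), sum_hA hw1, sum_hC, sum_g0 hw1, star_card,
    star_card, star_card, hTc, card_singleton, pow_one, sub_eq_add_neg (t * (k : ℝ)), Real.exp_add]
  have he0 := Real.exp_pos (-t)
  have he1 : Real.exp (-t) ≤ 1 := Real.exp_le_one_iff.2 (by linarith)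
  have h00 := hw 0
  have h01 := hw 1
  have hs := hw1
  rw [Fin.sum_univ_three] at hs
  have h02 := hw 2
  have hw0 : w 0 ≤ 1 := by linarith
  have h3 : (1 + w 0 * (Real.exp (-t) - 1)) ^ (n - 2) ≤
      Real.exp (-(w 0 * (1 - Real.exp (-t)) * ((n - 2 : ℕ) : ℝ))) := by
    refine (pow_le_exp (by nlinarith) _).trans ?_
    apply Real.exp_le_exp.2
    apply le_of_eq
    ring
  calc Real.exp (t * k) * ((1 - w 0) ^ (n - 2) * w 1 * (1 + w 0 * (Real.exp (-t) - 1)) ^ (n - 2))
      ≤ Real.exp (t * k) * ((1 - w 0) ^ (n - 2) * w 1 *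
        Real.exp (-(w 0 * (1 - Real.exp (-t)) * ((n - 2 : ℕ) : ℝ)))) := by
        apply mul_le_mul_of_nonneg_left _ (Real.exp_pos _).le
        apply mul_le_mul_of_nonneg_left h3
        exact mul_nonneg (pow_nonneg (by linarith) _) h01
    _ = _ := by ring

/-- the number of isolated vertices -/
noncomputable def NN (x : Sym2 (Fin n) → Fin 3) : ℝ := ∑ i, X x i

/-- the number of failures -/
noncomputable def ZZ (k : ℕ) (x : Sym2 (Fin n) → Fin 3) : ℝ :=
  ∑ i, (X x i * (if c1 x i < k then 1 else 0) +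
    ∑ j ∈ univ.erase i, X x i * (if x s(i, j) = 1 ∧ dl x i j < k then 1 else 0))

lemma NN_le_ZZ (k : ℕ) (x : Sym2 (Fin n) → Fin 3) (h : ¬ GoodL k x) : NN x ≤ ZZ k x := by
  unfold NN ZZ
  apply sum_le_sum
  intro i _
  have hX := X_nonneg x i
  have hs : ∀ j ∈ univ.erase i, 0 ≤ X x i *
      (if x s(i, j) = 1 ∧ dl x i j < k then (1 : ℝ) else 0) := by
    intro j _
    apply mul_nonneg hX
    split_ifs <;> norm_num
  by_cases hi : Iso x i
  · by_cases hc : c1 x i < k
    · rw [if_pos hc, mul_one]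
      have := sum_nonneg hs
      linarith
    · push Not at hc
      unfold GoodL at h
      push Not at h
      obtain ⟨j, hj, hj1, hj2⟩ := h i hi hc
      have hmem : j ∈ univ.erase i := by rw [mem_erase]; exact ⟨hj, mem_univ _⟩
      have h1 := single_le_sum hs hmem
      rw [if_pos ⟨hj1, hj2⟩, mul_one] at h1
      have h2 : 0 ≤ X x i * (if c1 x i < k then (1 : ℝ) else 0) := by
        apply mul_nonneg hX
        split_ifs <;> norm_num
      linarith
  · rw [X_of_not hi]
    simp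

theorem low_fin (hw : ∀ a, 0 ≤ w a) (hw1 : ∑ a, w a = 1) (hn : 2 ≤ n) (hp : w 0 ≤ 1 / 2) (k : ℕ)
    (t : ℝ) (ht : 0 ≤ t) :
    EE w (fun x : Sym2 (Fin n) → Fin 3 => if GoodL k x then 0 else 1) ≤
      4 / (n * (1 - w 0) ^ (n - 1)) + 8 * w 0 +
      2 * Real.exp (k - w 1 * (1 - Real.exp (-1)) * ((n - 1 : ℕ) : ℝ)) +
      4 * (n * w 1) * Real.exp (t * k - w 0 * (1 - Real.exp (-t)) * ((n - 2 : ℕ) : ℝ)) := by
  have h00 := hw 0
  have h01 := hw 1
  set p := w 0 with hpd
  have hn0 : (0 : ℝ) < n := by exact_mod_cast (by omega : 0 < n)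
  have hq : 1 / 2 ≤ 1 - p := by linarith
  have hq0 : 0 < 1 - p := by linarith
  set μ : ℝ := n * (1 - p) ^ (n - 1) with hμ
  have hμ0 : 0 < μ := by positivity
  have hpow : (1 - p) ^ (n - 1) = (1 - p) ^ (n - 2) * (1 - p) := by
    rw [← pow_succ]
    congr 1
    omega
  have hpow2 : (1 - p) ^ (n - 2) ≤ 2 * (1 - p) ^ (n - 1) := by
    rw [hpow]
    have : 0 ≤ (1 - p) ^ (n - 2) := by positivity
    nlinarith
  -- the two moments
  have m1 : EE w (fun x : Sym2 (Fin n) → Fin 3 => NN x) = μ := by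
    unfold NN
    rw [EE_sum, sum_congr rfl (fun i _ => EE_X hw1 i), sum_const, card_univ, Fintype.card_fin,
      nsmul_eq_mul]
  have m2 : EE w (fun x : Sym2 (Fin n) → Fin 3 => NN x * NN x) ≤
      μ + n * n * ((1 - p) ^ (n - 1) * (1 - p) ^ (n - 2)) := by
    have e : ∀ x : Sym2 (Fin n) → Fin 3, NN x * NN x = ∑ i, ∑ j, X x i * X x j := by
      intro x
      unfold NN
      rw [sum_mul_sum]
    simp only [e]
    rw [EE_sum]
    have hb : 0 ≤ (1 - p) ^ (n - 1) * (1 - p) ^ (n - 2) := by positivity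
    have h1 : ∀ i ∈ (univ : Finset (Fin n)), EE w (fun x => ∑ j, X x i * X x j) ≤
        (1 - p) ^ (n - 1) + n * ((1 - p) ^ (n - 1) * (1 - p) ^ (n - 2)) := by
      intro i _
      rw [EE_sum, ← add_sum_erase _ _ (mem_univ i)]
      apply add_le_add
      · rw [← EE_X hw1 i]
        apply EE_mono hw
        intro x
        by_cases hi : Iso x i
        · rw [X_of_iso hi]; norm_num
        · rw [X_of_not hi]; norm_num
      · calc ∑ j ∈ univ.erase i, EE w (fun x => X x i * X x j)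
            ≤ ∑ j ∈ (univ.erase i : Finset (Fin n)),
              (1 - p) ^ (n - 1) * (1 - p) ^ (n - 2) := by
              apply sum_le_sum
              intro j hj
              rw [mem_erase] at hj
              exact EE_XX hw hw1 hj.1.symm
          _ ≤ _ := by
              rw [sum_const, nsmul_eq_mul]
              apply mul_le_mul_of_nonneg_right _ hb
              have := card_le_univ (univ.erase i : Finset (Fin n))
              rw [Fintype.card_fin] at this
              exact_mod_cast this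
    refine (sum_le_sum h1).trans ?_
    rw [sum_const, card_univ, Fintype.card_fin, nsmul_eq_mul, hμ]
    apply le_of_eq
    ring
  have m3 : (n : ℝ) * n * ((1 - p) ^ (n - 1) * (1 - p) ^ (n - 2)) ≤ μ ^ 2 + 2 * p * μ ^ 2 := by
    have h1 : (1 - p) ^ (n - 2) ≤ (1 + 2 * p) * (1 - p) ^ (n - 1) := by
      rw [hpow]
      have h2 : 0 ≤ (1 - p) ^ (n - 2) := by positivity
      have h3 : 1 ≤ (1 + 2 * p) * (1 - p) := by nlinarith
      calc (1 - p) ^ (n - 2) = 1 * (1 - p) ^ (n - 2) := (one_mul _).symm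
        _ ≤ ((1 + 2 * p) * (1 - p)) * (1 - p) ^ (n - 2) := mul_le_mul_of_nonneg_right h3 h2
        _ = _ := by ring
    calc (n : ℝ) * n * ((1 - p) ^ (n - 1) * (1 - p) ^ (n - 2))
        ≤ n * n * ((1 - p) ^ (n - 1) * ((1 + 2 * p) * (1 - p) ^ (n - 1))) := by
          apply mul_le_mul_of_nonneg_left _ (by positivity)
          exact mul_le_mul_of_nonneg_left h1 (by positivity)
      _ = μ ^ 2 + 2 * p * μ ^ 2 := by rw [hμ]; ring
  have m4 : EE w (fun x : Sym2 (Fin n) → Fin 3 => (NN x - μ) ^ 2) ≤ μ + 2 * p * μ ^ 2 := by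
    have e : (fun x : Sym2 (Fin n) → Fin 3 => (NN x - μ) ^ 2) =
        fun x => (NN x * NN x + (-(2 * μ)) * NN x) + μ ^ 2 * 1 := by
      funext x
      ring
    rw [e, EE_add, EE_add, EE_const_mul, EE_const_mul, EE_one hw1, m1]
    nlinarith
  -- the failures
  have m5 : EE w (fun x : Sym2 (Fin n) → Fin 3 => ZZ k x) ≤
      μ * (Real.exp (k - w 1 * (1 - Real.exp (-1)) * ((n - 1 : ℕ) : ℝ)) +
        2 * (n * w 1) * Real.exp (t * k - p * (1 - Real.exp (-t)) * ((n - 2 : ℕ) : ℝ))) := by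
    unfold ZZ
    rw [EE_sum]
    set A := Real.exp (k - w 1 * (1 - Real.exp (-1)) * ((n - 1 : ℕ) : ℝ)) with hA'
    set B := Real.exp (t * k - p * (1 - Real.exp (-t)) * ((n - 2 : ℕ) : ℝ)) with hB'
    have hB0 : 0 ≤ B := (Real.exp_pos _).le
    have h1 : ∀ i ∈ (univ : Finset (Fin n)), EE w (fun x => X x i * (if c1 x i < k then 1 else 0) +
        ∑ j ∈ univ.erase i, X x i * (if x s(i, j) = 1 ∧ dl x i j < k then 1 else 0)) ≤
        (1 - p) ^ (n - 1) * A + n * ((1 - p) ^ (n - 2) * w 1 * B) := by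
      intro i _
      rw [EE_add, EE_sum]
      apply add_le_add
      · exact EE_Y1 hw hw1 i k
      · have hb : 0 ≤ (1 - p) ^ (n - 2) * w 1 * B := by positivity
        calc ∑ j ∈ univ.erase i,
              EE w (fun x => X x i * (if x s(i, j) = 1 ∧ dl x i j < k then 1 else 0))
            ≤ ∑ j ∈ (univ.erase i : Finset (Fin n)), (1 - p) ^ (n - 2) * w 1 * B := by
              apply sum_le_sum
              intro j hj
              rw [mem_erase] at hj
              exact EE_Y2 hw hw1 hj.1.symm k t ht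
          _ ≤ _ := by
              rw [sum_const, nsmul_eq_mul]
              apply mul_le_mul_of_nonneg_right _ hb
              have := card_le_univ (univ.erase i : Finset (Fin n))
              rw [Fintype.card_fin] at this
              exact_mod_cast this
    refine (sum_le_sum h1).trans ?_
    rw [sum_const, card_univ, Fintype.card_fin, nsmul_eq_mul]
    have h2 : n * ((1 - p) ^ (n - 2) * w 1 * B) ≤ n * (2 * (1 - p) ^ (n - 1) * w 1 * B) := by
      apply mul_le_mul_of_nonneg_left _ hn0.le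
      apply mul_le_mul_of_nonneg_right _ hB0
      exact mul_le_mul_of_nonneg_right hpow2 h01
    calc (n : ℝ) * ((1 - p) ^ (n - 1) * A + n * ((1 - p) ^ (n - 2) * w 1 * B))
        ≤ n * ((1 - p) ^ (n - 1) * A + n * (2 * (1 - p) ^ (n - 1) * w 1 * B)) := by
          apply mul_le_mul_of_nonneg_left _ hn0.le
          linarith
      _ = _ := by rw [hμ]; ring
  -- the indicator
  have h1 : ∀ x : Sym2 (Fin n) → Fin 3, (if GoodL k x then (0 : ℝ) else 1) ≤
      4 / μ ^ 2 * (NN x - μ) ^ 2 + 2 / μ * ZZ k x := by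
    intro x
    have hN0 : 0 ≤ NN x := sum_nonneg fun i _ => X_nonneg x i
    have hZ0 : 0 ≤ ZZ k x := by
      unfold ZZ
      apply sum_nonneg
      intro i _
      have hX := X_nonneg x i
      apply add_nonneg
      · apply mul_nonneg hX
        split_ifs <;> norm_num
      · apply sum_nonneg
        intro j _
        apply mul_nonneg hX
        split_ifs <;> norm_num
    have q1 : 0 ≤ 4 / μ ^ 2 * (NN x - μ) ^ 2 := by positivity
    have q2 : 0 ≤ 2 / μ * ZZ k x := by positivity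
    by_cases h : GoodL k x
    · rw [if_pos h]
      linarith
    · rw [if_neg h]
      have hNZ := NN_le_ZZ k x h
      by_cases h2 : NN x ≤ μ / 2
      · have h3 : μ ^ 2 / 4 ≤ (NN x - μ) ^ 2 := by nlinarith
        have h4 : 4 / μ ^ 2 * (μ ^ 2 / 4) ≤ 4 / μ ^ 2 * (NN x - μ) ^ 2 :=
          mul_le_mul_of_nonneg_left h3 (by positivity)
        have h5 : 4 / μ ^ 2 * (μ ^ 2 / 4) = 1 := by field_simp
        linarith
      · push Not at h2
        have h4 : 2 / μ * (μ / 2) ≤ 2 / μ * ZZ k x :=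
          mul_le_mul_of_nonneg_left (by linarith) (by positivity)
        have h5 : 2 / μ * (μ / 2) = 1 := by field_simp
        linarith
  refine (EE_mono hw h1).trans ?_
  rw [EE_add, EE_const_mul, EE_const_mul]
  have r1 : 4 / μ ^ 2 * EE w (fun x : Sym2 (Fin n) → Fin 3 => (NN x - μ) ^ 2) ≤
      4 / μ + 8 * p := by
    calc 4 / μ ^ 2 * EE w (fun x : Sym2 (Fin n) → Fin 3 => (NN x - μ) ^ 2)
        ≤ 4 / μ ^ 2 * (μ + 2 * p * μ ^ 2) := mul_le_mul_of_nonneg_left m4 (by positivity)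
      _ = 4 / μ + 8 * p := by field_simp; ring
  have r2 : 2 / μ * EE w (fun x : Sym2 (Fin n) → Fin 3 => ZZ k x) ≤
      2 * Real.exp (k - w 1 * (1 - Real.exp (-1)) * ((n - 1 : ℕ) : ℝ)) +
      4 * (n * w 1) * Real.exp (t * k - p * (1 - Real.exp (-t)) * ((n - 2 : ℕ) : ℝ)) := by
    refine (mul_le_mul_of_nonneg_left m5 (by positivity)).trans ?_
    apply le_of_eq
    field_simp
    ring
  linarith

end Pool.Agent.X139.MG
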