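import Mathlib

/-!
# Numerical inequalities
-/

set_option autoImplicit false

namespace Pool.Agent.X139.MG

open Finset Filter Topology

lemma key_ineq (n s : ℕ) (hs : 1 ≤ s) (h2 : 2 * s ≤ n) :
    2 * (Real.log n * s / n) ≤ Real.log s + 2 := by
  have hs0 : (0 : ℝ) < s := by exact_mod_cast hs
  have hs1 : (1 : ℝ) ≤ s := by exact_mod_cast hs
  have hn2 : 2 * (s : ℝ) ≤ n := by exact_mod_cast h2
  have hn0 : (0 : ℝ) < n := by linarith
  have hls : 0 ≤ Real.log s := Real.log_nonneg hs1
  set L := Real.log n with hL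
  have hL0 : 0 ≤ L := Real.log_nonneg (by linarith)
  by_cases h : L * s ≤ n
  · have : L * s / n ≤ 1 := by rw [div_le_one hn0]; exact h
    linarith
  · push Not at h
    -- `x = n / s < L`
    set x : ℝ := n / s with hx
    have hx2 : 2 ≤ x := by rw [hx, le_div_iff₀ hs0]; exact hn2
    have hxL : x < L := by rw [hx, div_lt_iff₀ hs0]; exact h
    have hx0 : 0 < x := by linarith
    have h1 : Real.log x = L - Real.log s := by
      rw [hx, Real.log_div hn0.ne' hs0.ne']
    have h3 : Real.log x ≤ Real.log 2 + (x / 2 - 1) := by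
      have h4 : Real.log x = Real.log 2 + Real.log (x / 2) := by
        rw [← Real.log_mul (by norm_num) (by positivity)]
        congr 1
        ring
      have h5 := Real.log_le_sub_one_of_pos (show 0 < x / 2 by positivity)
      linarith
    have h6 : Real.log 2 ≤ 1 := by
      have := Real.log_le_sub_one_of_pos (show (0 : ℝ) < 2 by norm_num)
      linarith
    have h7 : L * s / n = L / x := by
      rw [hx]
      field_simp
    rw [h7]
    -- L (1 - 2/x) ≥ x - 2
    have h8 : x - 2 ≤ L - 2 * (L / x) := by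
      have e : L - 2 * (L / x) = L * ((x - 2) / x) := by field_simp
      rw [e]
      have e2 : x - 2 = x * ((x - 2) / x) := by field_simp
      rw [e2]
      have h9 : 0 ≤ (x - 2) / x := div_nonneg (by linarith) hx0.le
      have h10 : x * ((x - 2) / x) ≤ L * ((x - 2) / x) :=
        mul_le_mul_of_nonneg_right hxL.le h9
      rw [← e2] at h10 ⊢
      exact h10
    linarith

lemma choose_le_exp (n s : ℕ) (hs : 1 ≤ s) (hn : s ≤ n) :
    (n.choose s : ℝ) ≤ Real.exp (s * (Real.log n - Real.log s + 1)) := by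
  have hs0 : (0 : ℝ) < s := by exact_mod_cast hs
  have hn0 : (0 : ℝ) < n := by exact_mod_cast (by omega : 0 < n)
  have h1 := Nat.choose_le_pow_div (α := ℝ) s n
  have h2 := Real.pow_div_factorial_le_exp (s : ℝ) hs0.le s
  have hf : (0 : ℝ) < (s.factorial : ℝ) := by exact_mod_cast s.factorial_pos
  have e : (n : ℝ) ^ s / s.factorial = (n / s : ℝ) ^ s * ((s : ℝ) ^ s / s.factorial) := by
    rw [div_pow]
    field_simp
  have e2 : (n / s : ℝ) ^ s = Real.exp (s * (Real.log n - Real.log s)) := by
    rw [← Real.log_div hn0.ne' hs0.ne', Real.exp_nat_mul, Real.exp_log (by positivity)]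
  calc (n.choose s : ℝ) ≤ (n : ℝ) ^ s / s.factorial := h1
    _ = Real.exp (s * (Real.log n - Real.log s)) * ((s : ℝ) ^ s / s.factorial) := by rw [e, e2]
    _ ≤ Real.exp (s * (Real.log n - Real.log s)) * Real.exp s :=
        mul_le_mul_of_nonneg_left h2 (Real.exp_pos _).le
    _ = _ := by rw [← Real.exp_add]; congr 1; ring

/-- one cardinality in the union bound -/
lemma term_le (n s : ℕ) (hs : 1 ≤ s) (h2 : 2 * s ≤ n) (t M b : ℝ) (hb : b ≤ 2) :
    (n.choose s : ℝ) * Real.exp (t * (M * s) - b * Real.log n / n * (s * (n - s))) ≤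
      (Real.exp (3 + t * M - (b - 1) * Real.log n)) ^ s := by
  have hs0 : (0 : ℝ) < s := by exact_mod_cast hs
  have hn0 : (0 : ℝ) < n := by exact_mod_cast (by omega : 0 < n)
  have h1 := choose_le_exp n s hs (by omega)
  have h3 := key_ineq n s hs h2
  have hL0 : 0 ≤ Real.log n := Real.log_nonneg (by exact_mod_cast (by omega : 1 ≤ n))
  refine (mul_le_mul_of_nonneg_right h1 (Real.exp_pos _).le).trans ?_
  rw [← Real.exp_add, ← Real.exp_nat_mul]
  apply Real.exp_le_exp.2
  have h4 : b * (Real.log n * s / n) ≤ Real.log s + 2 := by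
    have h5 : 0 ≤ Real.log n * s / n := by positivity
    nlinarith
  have e : b * Real.log n / n * (s * (n - s)) =
      s * (b * Real.log n - b * (Real.log n * s / n)) := by field_simp
  rw [e]
  have : s * (Real.log n - Real.log s + 1) + (t * (M * s) -
      s * (b * Real.log n - b * (Real.log n * s / n))) =
      s * (Real.log n - Real.log s + 1 + t * M - b * Real.log n + b * (Real.log n * s / n)) := by
    ring
  rw [this]
  apply mul_le_mul_of_nonneg_left _ hs0.le
  linarith

/-- the sum over all sets -/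
lemma sum_sets (n : ℕ) (h : ℕ → ℝ) (r : ℝ) (hr : 0 ≤ r) (hr2 : r ≤ 1 / 2)
    (hh : ∀ s, 1 ≤ s → 2 * s ≤ n → (n.choose s : ℝ) * h s ≤ r ^ s) :
    ∑ S ∈ (univ : Finset (Finset (Fin n))).filter (fun S => S.Nonempty ∧ 2 * S.card ≤ n),
      h S.card ≤ 2 * r := by
  classical
  set f : ℕ → ℝ := fun s => if 1 ≤ s ∧ 2 * s ≤ n then h s else 0 with hf
  have e1 : ∑ S ∈ (univ : Finset (Finset (Fin n))).filter (fun S => S.Nonempty ∧ 2 * S.card ≤ n),
      h S.card = ∑ S ∈ (univ : Finset (Fin n)).powerset, f S.card := by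
    rw [sum_filter, powerset_univ]
    refine sum_congr rfl fun S _ => ?_
    rw [hf]
    have : S.Nonempty ↔ 1 ≤ S.card := by rw [← card_pos]; rfl
    simp only [this]
  rw [e1, sum_powerset_apply_card, card_univ, Fintype.card_fin]
  have h1 : ∀ s ∈ range (n + 1), n.choose s • f s ≤ if s = 0 then 0 else r ^ s := by
    intro s _
    rw [hf, nsmul_eq_mul]
    by_cases h0 : s = 0
    · subst h0
      simp
    · rw [if_neg h0]
      show (n.choose s : ℝ) * (if 1 ≤ s ∧ 2 * s ≤ n then h s else 0) ≤ r ^ s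
      split_ifs with h3
      · exact hh s h3.1 h3.2
      · rw [mul_zero]
        positivity
  refine (sum_le_sum h1).trans ?_
  rw [sum_range_succ']
  have h2 : ∀ s ∈ range n, (if s + 1 = 0 then 0 else r ^ (s + 1)) ≤ r * (1 / (2 : ℝ)) ^ s := by
    intro s _
    rw [if_neg (Nat.succ_ne_zero s), pow_succ, mul_comm]
    apply mul_le_mul_of_nonneg_left _ hr
    exact pow_le_pow_left₀ hr hr2 s
  have h3 := sum_le_sum h2
  rw [← mul_sum] at h3
  have h4 := sum_geometric_two_le n
  rw [if_pos rfl, add_zero]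
  refine h3.trans ?_
  nlinarith

lemma tendsto_log_nat : Tendsto (fun n : ℕ => Real.log n) atTop atTop :=
  Real.tendsto_log_atTop.comp tendsto_natCast_atTop_atTop

lemma tendsto_exp_log (C β : ℝ) (hβ : 0 < β) :
    Tendsto (fun n : ℕ => Real.exp (C - β * Real.log n)) atTop (𝓝 0) := by
  apply Real.tendsto_exp_atBot.comp
  have h : Tendsto (fun n : ℕ => β * Real.log n) atTop atTop :=
    tendsto_log_nat.const_mul_atTop hβ
  have h2 : Tendsto (fun n : ℕ => -(β * Real.log n)) atTop atBot := tendsto_neg_atTop_atBot.comp h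
  have := tendsto_atBot_add_const_left atTop C h2
  simpa [sub_eq_add_neg] using this

/-- powers of the logarithm against powers -/
lemma tendsto_log_pow (m : ℕ) (β : ℝ) (hβ : 0 < β) :
    Tendsto (fun n : ℕ => Real.log n ^ m * Real.exp (-(β * Real.log n))) atTop (𝓝 0) := by
  have h1 : Tendsto (fun x : ℝ => x ^ m * Real.exp (-(β * x))) atTop (𝓝 0) := by
    have h2 := Real.tendsto_pow_mul_exp_neg_atTop_nhds_zero m
    have h3 : Tendsto (fun x : ℝ => β * x) atTop atTop := tendsto_id.const_mul_atTop hβ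
    have h4 := (h2.comp h3).const_mul ((1 / β) ^ m)
    rw [mul_zero] at h4
    refine h4.congr fun x => ?_
    show (1 / β) ^ m * ((β * x) ^ m * Real.exp (-(β * x))) = _
    rw [← mul_assoc, ← mul_pow]
    congr 2
    field_simp
  exact h1.comp tendsto_log_nat

lemma tendsto_log_div : Tendsto (fun n : ℕ => Real.log n / n) atTop (𝓝 0) := by
  have h := tendsto_log_pow 1 1 one_pos
  refine h.congr' ?_
  filter_upwards [eventually_ge_atTop 1] with n hn
  have hn0 : (0 : ℝ) < n := by exact_mod_cast hn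
  rw [pow_one, one_mul, Real.exp_neg, Real.exp_log hn0]
  rfl

end Pool.Agent.X139.MG
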