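import Pool.Agent.X139.MG.Up
import Pool.Agent.X139.MG.Num

/-!
# The upper part: connected for `k ≥ c log n`, `c > 1`
-/

set_option autoImplicit false

namespace Pool.Agent.X139.MG

open Finset MeasureTheory ProbabilityTheory Filter Topology
open scoped Classical

/-- independent exponential costs of rate `1 / n` -/
noncomputable def costLaw (n : ℕ) : Measure (Sym2 (Fin n) → ℝ) :=
  Measure.pi (fun _ => expMeasure (1 / n))

lemma deg0_eq {n : ℕ} (ω : Sym2 (Fin n) → ℝ) (y y2 : ℝ) (v : Fin n) :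
    deg0 ω y v = d0 (fun e => lab y y2 (ω e)) v := by
  unfold deg0 d0
  congr 1
  ext l
  simp only [mem_filter, mem_univ, true_and, lab_zero]

lemma good_connected {n : ℕ} (k m0 D M R : ℕ) (ω : Sym2 (Fin n) → ℝ) (y y2 : ℝ) (hn : 0 < n)
    (hR : D ≤ R * (k - m0)) (hM : (1 + R) * m0 ≤ M)
    (h : ¬ BadU k D M m0 (fun e => lab y y2 (ω e))) : (mutualGraph k ω).Connected := by
  unfold BadU at h
  push Not at h
  obtain ⟨h0, h1, h2⟩ := h
  apply det_up k m0 D M R ω y hn _ _ _ hR hM
  · intro v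
    rw [deg0_eq ω y y2]
    exact h0 v (mem_univ _)
  · intro S hS hS2
    have := h1 S (by rw [mem_filter]; exact ⟨mem_univ _, hS, hS2⟩)
    have e : ((S ×ˢ Sᶜ).filter (fun q : Fin n × Fin n => ω s(q.1, q.2) ≤ y)) =
        ((S ×ˢ Sᶜ).filter (fun q : Fin n × Fin n => lab y y2 (ω s(q.1, q.2)) = 0)) := by
      ext q
      simp only [mem_filter, lab_zero]
    rw [e]
    exact this
  · intro v
    by_contra hc
    push Not at hc
    obtain ⟨B, hB, hBc⟩ := exists_subset_card_eq (Nat.succ_le_of_lt hc)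
    have hvB : v ∉ B := fun hv => by
      have := hB hv
      rw [mem_filter] at this
      exact this.2.1 rfl
    obtain ⟨b, hb, hb2⟩ := h2 (v, B) (by
      rw [mem_filter, mem_product, mem_powersetCard]
      exact ⟨⟨mem_univ _, subset_univ _, hBc⟩, hvB⟩)
    have h3 := hB hb
    rw [mem_filter] at h3
    have h4 := hb2 (lab_zero.2 h3.2.2.1)
    rw [← deg0_eq ω y y2] at h4
    exact absurd h3.2.2.2 (not_lt.2 h4)

/-- the bound for one `n` -/
lemma up_one (n : ℕ) (hn : 1 ≤ n) (k m0 D M R : ℕ) (a c t t₁ : ℝ)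
    (ht : 0 ≤ t) (ht₁ : 0 ≤ t₁) (ha : 0 < a) (ha2 : a * (1 - Real.exp (-t)) ≤ 2)
    (hk : c * Real.log n ≤ k) (hD : (2 * a + 2) * Real.log n ≤ D)
    (hR : D ≤ R * (k - m0)) (hM : (1 + R) * m0 ≤ M)
    (hp : a * Real.log n / n < 1)
    (hγ : 2 ≤ (c * t₁ - a * (Real.exp t₁ - 1)) * (m0 + 1))
    (hr : Real.exp (3 + t * M - (a * (1 - Real.exp (-t)) - 1) * Real.log n) ≤ 1 / 2) :
    1 - (1 / (n : ℝ) + 2 * Real.exp (3 + t * M - (a * (1 - Real.exp (-t)) - 1) * Real.log n) +
      a ^ (m0 + 1) * Real.exp (t₁ * (m0 + 1) ^ 2) *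
        (Real.log n ^ (m0 + 1) * Real.exp (-(1 * Real.log n)))) ≤
      (costLaw n).real {ω | (mutualGraph k ω).Connected} := by
  have hn0 : (0 : ℝ) < n := by exact_mod_cast hn
  have hL0 : 0 ≤ Real.log n := Real.log_nonneg (by exact_mod_cast hn)
  have hr0 : (0 : ℝ) < 1 / n := by positivity
  have := isProbabilityMeasure_expMeasure hr0
  set L := Real.log n with hL
  set y : ℝ := -Real.log (1 - a * L / n) / (1 / n) with hy
  set w := labw (expMeasure (1 / (n : ℝ))) y y with hw
  have hw0 : w 0 = a * L / n := by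
    rw [hw, labw_zero, hy]
    exact exists_threshold hr0 _ (by positivity) hp
  have hwn : ∀ i, 0 ≤ w i := fun i => labw_nonneg _ _ _ _
  have hws : ∑ i, w i = 1 := labw_sum _ _ _
  have hexpL : Real.exp (-L) = 1 / n := by
    rw [Real.exp_neg, hL, Real.exp_log hn0, one_div]
  -- the probability of the bad event
  have hmeas : MeasurableSet {ω : Sym2 (Fin n) → ℝ | BadU k D M m0 (fun e => lab y y (ω e))} := by
    have h1 : Measurable (fun ω : Sym2 (Fin n) → ℝ => fun e => lab y y (ω e)) := by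
      rw [measurable_pi_iff]
      intro e
      apply (measurable_to_countable' (fun a => ?_) : Measurable (lab y y)).comp
        (measurable_pi_apply e)
      exact lab_meas y y a
    exact h1 (MeasurableSet.of_discrete (s := {x : Sym2 (Fin n) → Fin 3 | BadU k D M m0 x}))
  have hbad : (costLaw n).real {ω | BadU k D M m0 (fun e => lab y y (ω e))} ≤
      1 / (n : ℝ) + 2 * Real.exp (3 + t * M - (a * (1 - Real.exp (-t)) - 1) * L) +
      a ^ (m0 + 1) * Real.exp (t₁ * (m0 + 1) ^ 2) * (L ^ (m0 + 1) * Real.exp (-(1 * L))) := by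
    unfold costLaw
    rw [link]
    refine (up_fin hwn hws k D M m0 t t₁ ht ht₁).trans ?_
    refine add_le_add (add_le_add ?_ ?_) ?_
    · rw [hw0]
      have e : 2 * (a * L / n * n) = 2 * a * L := by field_simp
      rw [e]
      calc n * Real.exp (-D + 2 * a * L) ≤ n * Real.exp (-L + -L) := by
            apply mul_le_mul_of_nonneg_left _ hn0.le
            apply Real.exp_le_exp.2
            linarith
        _ = 1 / n := by
            rw [Real.exp_add, hexpL]
            field_simp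
    · set b := a * (1 - Real.exp (-t)) with hb
      have hs := sum_sets n (fun s => Real.exp (t * (M * s) - b * L / n * (s * (n - s))))
        (Real.exp (3 + t * M - (b - 1) * L)) (Real.exp_pos _).le hr
        (fun s h1 h2 => term_le n s h1 h2 t M b ha2)
      refine le_trans (le_of_eq ?_) hs
      refine sum_congr rfl fun S _ => ?_
      have hc : ((Sᶜ.card : ℕ) : ℝ) = n - S.card := by
        rw [card_compl, Fintype.card_fin, Nat.cast_sub]
        have := card_le_univ S
        rwa [Fintype.card_fin] at this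
      rw [hw0, hc]
      congr 1
      rw [hb]
      ring
    · rw [hw0]
      have hm1 : (0 : ℝ) ≤ (m0 : ℝ) + 1 := by positivity
      have e1 : (n : ℝ) * n ^ (m0 + 1) * ((a * L / n) ^ (m0 + 1) *
          Real.exp (-(t₁ * ((m0 + 1) * (k + 1 - (m0 + 1)))) +
            a * L / n * (Real.exp t₁ - 1) * ((m0 + 1) * n))) =
          n * (a ^ (m0 + 1) * L ^ (m0 + 1)) *
          Real.exp (-(t₁ * ((m0 + 1) * (k + 1 - (m0 + 1)))) +
            a * L / n * (Real.exp t₁ - 1) * ((m0 + 1) * n)) := by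
        rw [div_pow, mul_pow]
        field_simp
      rw [e1]
      have e2 : a * L / n * (Real.exp t₁ - 1) * ((m0 + 1) * n) =
          a * L * (Real.exp t₁ - 1) * (m0 + 1) := by field_simp
      rw [e2]
      have h1 : -(t₁ * (((m0 : ℝ) + 1) * (k + 1 - (m0 + 1)))) + a * L * (Real.exp t₁ - 1) * (m0 + 1) ≤
          t₁ * (m0 + 1) ^ 2 + -L + -L := by
        have h2 : t₁ * (m0 + 1) * (c * L) ≤ t₁ * (m0 + 1) * k :=
          mul_le_mul_of_nonneg_left hk (mul_nonneg ht₁ hm1)
        have h3 := mul_le_mul_of_nonneg_right hγ hL0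
        have h4 : 0 ≤ t₁ * (m0 + 1) := mul_nonneg ht₁ hm1
        nlinarith
      have h5 : Real.exp (-(t₁ * (((m0 : ℝ) + 1) * (k + 1 - (m0 + 1)))) +
          a * L * (Real.exp t₁ - 1) * (m0 + 1)) ≤
          Real.exp (t₁ * (m0 + 1) ^ 2) * Real.exp (-L) * (1 / n) := by
        rw [← hexpL, ← Real.exp_add, ← Real.exp_add]
        exact Real.exp_le_exp.2 h1
      calc n * (a ^ (m0 + 1) * L ^ (m0 + 1)) * Real.exp (-(t₁ * (((m0 : ℝ) + 1) *
            (k + 1 - (m0 + 1)))) + a * L * (Real.exp t₁ - 1) * (m0 + 1))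
          ≤ n * (a ^ (m0 + 1) * L ^ (m0 + 1)) *
            (Real.exp (t₁ * (m0 + 1) ^ 2) * Real.exp (-L) * (1 / n)) :=
            mul_le_mul_of_nonneg_left h5 (by positivity)
        _ = a ^ (m0 + 1) * Real.exp (t₁ * (m0 + 1) ^ 2) * (L ^ (m0 + 1) * Real.exp (-(1 * L))) := by
            rw [one_mul]
            field_simp
  have hP : IsProbabilityMeasure (costLaw n) := by
    unfold costLaw
    infer_instance
  have hsub : {ω : Sym2 (Fin n) → ℝ | BadU k D M m0 (fun e => lab y y (ω e))}ᶜ ⊆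
      {ω | (mutualGraph k ω).Connected} := by
    intro ω hω
    exact good_connected k m0 D M R ω y y hn hR hM hω
  have h1 := measureReal_mono (μ := costLaw n) hsub
  rw [probReal_compl_eq_one_sub hmeas] at h1
  linarith

theorem upper (c : ℝ) (hc : 1 < c) (k : ℕ → ℕ)
    (hk : ∀ᶠ n : ℕ in atTop, c * Real.log n ≤ k n) :
    Tendsto (fun n => (costLaw n).real {ω | (mutualGraph (k n) ω).Connected}) atTop (𝓝 1) := by
  -- the constants
  set a : ℝ := min ((1 + c) / 2) 2 with ha
  have ha1 : 1 < a := lt_min (by linarith) (by norm_num)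
  have hac : a < c := by
    by_cases h : c ≤ 2
    · exact (min_le_left _ _).trans_lt (by linarith)
    · exact (min_le_right _ _).trans_lt (by push Not at h; exact h)
  have ha2 : a ≤ 2 := min_le_right _ _
  have ha0 : 0 < a := by linarith
  set t₁ : ℝ := min 1 ((c - a) / (2 * a)) with ht₁d
  have ht₁ : 0 < t₁ := lt_min one_pos (div_pos (by linarith) (by linarith))
  have ht₁1 : t₁ ≤ 1 := min_le_left _ _
  have ht₁2 : a * t₁ ≤ (c - a) / 2 := by
    have : t₁ ≤ (c - a) / (2 * a) := min_le_right _ _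
    rw [le_div_iff₀ (by linarith)] at this
    linarith
  have he1 : Real.exp t₁ - 1 ≤ t₁ + t₁ ^ 2 := by
    have h := Real.abs_exp_sub_one_sub_id_le (x := t₁) (by rw [abs_of_pos ht₁]; exact ht₁1)
    have := (abs_le.1 h).2
    linarith
  have hγ : 0 < c * t₁ - a * (Real.exp t₁ - 1) := by
    have h1 : a * (Real.exp t₁ - 1) ≤ a * (t₁ + t₁ ^ 2) := mul_le_mul_of_nonneg_left he1 ha0.le
    have h2 : a * t₁ * t₁ ≤ (c - a) / 2 * t₁ := mul_le_mul_of_nonneg_right ht₁2 ht₁.le
    have h3 : 0 < (c - a) / 2 * t₁ := mul_pos (by linarith) ht₁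
    nlinarith
  set γ := c * t₁ - a * (Real.exp t₁ - 1) with hγd
  obtain ⟨m0, hm0⟩ := exists_nat_gt (2 / γ)
  have hm : 2 ≤ γ * (m0 + 1) := by
    rw [div_lt_iff₀ hγ] at hm0
    nlinarith
  set u : ℝ := (a - 1) / (2 * a) with hu
  have hu0 : 0 < u := div_pos (by linarith) (by linarith)
  have hu1 : u ≤ 1 := by rw [hu, div_le_one (by linarith)]; linarith
  set t : ℝ := -Real.log u with ht
  have ht0 : 0 ≤ t := by
    rw [ht]
    linarith [Real.log_nonpos hu0.le hu1]
  have het : Real.exp (-t) = u := by rw [ht, neg_neg, Real.exp_log hu0]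
  have hb : a * (1 - Real.exp (-t)) = (a + 1) / 2 := by
    rw [het, hu]
    field_simp
    ring
  have hb1 : 0 < a * (1 - Real.exp (-t)) - 1 := by rw [hb]; linarith
  have hb2 : a * (1 - Real.exp (-t)) ≤ 2 := by rw [hb]; linarith
  set M : ℕ := 13 * m0 with hM
  -- the error tends to zero
  have herr : Tendsto (fun n : ℕ => 1 - (1 / (n : ℝ) +
      2 * Real.exp (3 + t * M - (a * (1 - Real.exp (-t)) - 1) * Real.log n) +
      a ^ (m0 + 1) * Real.exp (t₁ * (m0 + 1) ^ 2) *
        (Real.log n ^ (m0 + 1) * Real.exp (-(1 * Real.log n))))) atTop (𝓝 1) := by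
    have l1 : Tendsto (fun n : ℕ => 1 / (n : ℝ)) atTop (𝓝 0) := tendsto_one_div_atTop_nhds_zero_nat
    have l2 := (tendsto_exp_log (3 + t * M) _ hb1).const_mul 2
    have l3 := (tendsto_log_pow (m0 + 1) 1 one_pos).const_mul
      (a ^ (m0 + 1) * Real.exp (t₁ * (m0 + 1) ^ 2))
    have := ((l1.add l2).add l3).const_sub 1
    simpa using this
  have hr : ∀ᶠ n : ℕ in atTop,
      Real.exp (3 + t * M - (a * (1 - Real.exp (-t)) - 1) * Real.log n) ≤ 1 / 2 :=
    (tendsto_exp_log (3 + t * M) _ hb1).eventually_le_const (by norm_num)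
  have hp : ∀ᶠ n : ℕ in atTop, a * Real.log n / n < 1 := by
    have := tendsto_log_div.const_mul a
    rw [mul_zero] at this
    filter_upwards [this.eventually_lt_const one_pos] with n hn
    rwa [mul_div_assoc]
  have hLbig : ∀ᶠ n : ℕ in atTop, (2 * (m0 : ℝ) + 1) ≤ Real.log n :=
    tendsto_log_nat.eventually_ge_atTop _
  refine tendsto_of_tendsto_of_tendsto_of_le_of_le' herr tendsto_const_nhds ?_ ?_
  · filter_upwards [hk, hr, hp, hLbig, eventually_ge_atTop 1] with n hkn hrn hpn hLn hn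
    set L := Real.log n with hL
    have hL0 : 0 ≤ L := by
      have : (0 : ℝ) ≤ m0 := Nat.cast_nonneg _
      linarith
    refine up_one n hn (k n) m0 ⌈(2 * a + 2) * L⌉₊ M 12 a c t t₁ ht0 ht₁.le ha0 hb2 hkn
      (Nat.le_ceil _) ?_ ?_ hpn hm hrn
    · -- `D ≤ 12 (k - m0)`
      have hm0k : m0 ≤ k n := by
        have h1 : (m0 : ℝ) ≤ k n := by
          have : (0 : ℝ) ≤ m0 := Nat.cast_nonneg _
          have : 1 * L ≤ c * L := mul_le_mul_of_nonneg_right hc.le hL0
          linarith
        exact_mod_cast h1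
      have h2 : (⌈(2 * a + 2) * L⌉₊ : ℝ) ≤ (2 * a + 2) * L + 1 :=
        (Nat.ceil_lt_add_one (by positivity)).le
      have h3 : (⌈(2 * a + 2) * L⌉₊ : ℝ) ≤ ((12 * (k n - m0) : ℕ) : ℝ) := by
        rw [Nat.cast_mul, Nat.cast_sub hm0k]
        have h4 : 1 * L ≤ c * L := mul_le_mul_of_nonneg_right hc.le hL0
        have h5 : 2 * a * L ≤ 4 * L := mul_le_mul_of_nonneg_right (by linarith) hL0
        have : (0 : ℝ) ≤ m0 := Nat.cast_nonneg _
        push_cast
        linarith
      exact_mod_cast h3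
    · rw [hM]
  · filter_upwards [eventually_ge_atTop 1] with n hn
    have hn0 : (0 : ℝ) < n := by exact_mod_cast hn
    have hr0 : (0 : ℝ) < 1 / n := by positivity
    have := isProbabilityMeasure_expMeasure hr0
    have hP : IsProbabilityMeasure (costLaw n) := by
      unfold costLaw
      infer_instance
    exact measureReal_le_one

end Pool.Agent.X139.MG
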