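import Pool.Agent.X139.MG.Low
import Pool.Agent.X139.MG.UpA

/-!
# The lower part: disconnected for `k ≤ c log n`, `c < 1`
-/

set_option autoImplicit false

namespace Pool.Agent.X139.MG

open Finset MeasureTheory ProbabilityTheory Filter Topology
open scoped Classical

lemma good_disconnected {n : ℕ} (k : ℕ) (ω : Sym2 (Fin n) → ℝ) (y y2 : ℝ) (hn : 2 ≤ n)
    (h : GoodL k (fun e => lab y y2 (ω e))) : ¬ (mutualGraph k ω).Connected := by
  obtain ⟨i, hi, h1, h2⟩ := h
  have hiy : ∀ l, l ≠ i → y < ω s(i, l) := by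
    intro l hl
    have := hi l hl
    by_contra hc
    push Not at hc
    exact this (lab_zero.2 hc)
  apply det_low k ω y y2 hn i hiy
  · refine h1.trans (le_of_eq ?_)
    unfold c1
    congr 1
    ext l
    simp only [mem_filter, mem_erase, mem_univ, and_true, true_and, lab_one]
  · intro j hj hy2
    refine (h2 j hj (lab_one.2 ⟨hiy j hj, hy2⟩)).trans (le_of_eq ?_)
    unfold dl
    congr 1
    ext l
    simp only [mem_filter, mem_erase, mem_univ, and_true, true_and, lab_zero]
    tauto

lemma pow_lower (n : ℕ) (p : ℝ) (hp0 : 0 ≤ p) (hp : p ≤ 1 / 2)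
    (h2 : 2 * (n * p) * p ≤ 1) : Real.exp (-(n * p) - 1) ≤ (1 - p) ^ (n - 1) := by
  have hq : 0 < 1 - p := by linarith
  have h1 : (1 - p) ^ n ≤ (1 - p) ^ (n - 1) :=
    pow_le_pow_of_le_one hq.le (by linarith) (Nat.sub_le _ _)
  refine le_trans ?_ h1
  have h3 : -(p * (1 + 2 * p)) ≤ Real.log (1 - p) := by
    have h4 := Real.one_sub_inv_le_log_of_pos hq
    have h5 : (1 - p)⁻¹ ≤ 1 + p * (1 + 2 * p) := by
      rw [inv_le_comm₀ hq (by positivity), inv_eq_one_div, div_le_iff₀ (by positivity)]
      nlinarith [mul_nonneg hp0 hp0, mul_nonneg (mul_nonneg hp0 hp0) hp0]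
    linarith
  have h6 : (1 - p) ^ n = Real.exp (n * Real.log (1 - p)) := by
    rw [Real.exp_nat_mul, Real.exp_log hq]
  rw [h6]
  apply Real.exp_le_exp.2
  have h7 : (n : ℝ) * (-(p * (1 + 2 * p))) ≤ n * Real.log (1 - p) :=
    mul_le_mul_of_nonneg_left h3 (Nat.cast_nonneg _)
  nlinarith

lemma low_one (n : ℕ) (hn : 3 ≤ n) (k : ℕ) (a c t : ℝ) (ht : 0 ≤ t) (ha : 0 < a)
    (hc1 : c ≤ 1) (hk : (k : ℝ) ≤ c * Real.log n)
    (hp2 : a * Real.log n / n + 6 * Real.log n / n < 1) (hp : a * Real.log n / n ≤ 1 / 2)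
    (hsq : 2 * (a * Real.log n) * (a * Real.log n / n) ≤ 1) :
    (costLaw n).real {ω | (mutualGraph k ω).Connected} ≤
      4 * Real.exp (1 - (1 - a) * Real.log n) + 8 * (a * (Real.log n / n)) +
      2 * Real.exp (0 - 1 * Real.log n) +
      24 * Real.exp 2 * (Real.log n ^ 1 *
        Real.exp (-((a * (1 - Real.exp (-t)) - c * t) * Real.log n))) := by
  have hn0 : (0 : ℝ) < n := by exact_mod_cast (by omega : 0 < n)
  have hn3 : (3 : ℝ) ≤ n := by exact_mod_cast hn
  have hL0 : 0 ≤ Real.log n := Real.log_nonneg (by linarith)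
  have hr0 : (0 : ℝ) < 1 / n := by positivity
  have := isProbabilityMeasure_expMeasure hr0
  set L := Real.log n with hL
  set p : ℝ := a * L / n with hpd
  set p' : ℝ := 6 * L / n with hp'd
  have hp0 : 0 ≤ p := by positivity
  have hp'0 : 0 ≤ p' := by positivity
  set y : ℝ := -Real.log (1 - p) / (1 / n) with hy
  set y2 : ℝ := -Real.log (1 - (p + p')) / (1 / n) with hy2
  have hyy : y ≤ y2 := by
    rw [hy, hy2]
    apply div_le_div_of_nonneg_right _ hr0.le
    have := Real.log_le_log (show 0 < 1 - (p + p') by linarith)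
      (show 1 - (p + p') ≤ 1 - p by linarith)
    linarith
  set w := labw (expMeasure (1 / (n : ℝ))) y y2 with hw
  have hw0 : w 0 = p := by
    rw [hw, labw_zero, hy]
    exact exists_threshold hr0 _ hp0 (by linarith)
  have hw01 : w 0 + w 1 = p + p' := by
    rw [hw, labw_zero_one _ _ _ hyy, hy2]
    exact exists_threshold hr0 _ (by positivity) hp2
  have hw1' : w 1 = p' := by linarith
  have hwn : ∀ i, 0 ≤ w i := fun i => labw_nonneg _ _ _ _
  have hws : ∑ i, w i = 1 := labw_sum _ _ _
  have hP : IsProbabilityMeasure (costLaw n) := by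
    unfold costLaw
    infer_instance
  have hsub : {ω : Sym2 (Fin n) → ℝ | (mutualGraph k ω).Connected} ⊆
      {ω | ¬ GoodL k (fun e => lab y y2 (ω e))} := by
    intro ω hω hG
    exact good_disconnected k ω y y2 (by omega) hG hω
  refine (measureReal_mono hsub).trans ?_
  unfold costLaw
  have hlink := link (ι := Sym2 (Fin n)) (expMeasure (1 / (n : ℝ))) y y2 (fun x => ¬ GoodL k x)
  rw [hlink]
  refine le_trans (EE_mono hwn (G := fun x => if GoodL k x then 0 else 1) (fun x => ?_)) ?_
  · by_cases h : GoodL k x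
    · simp [h]
    · simp [h]
  refine (low_fin hwn hws (by omega) (by rw [hw0]; exact hp) k t ht).trans ?_
  rw [hw0, hw1']
  have hnp : (n : ℝ) * p = a * L := by rw [hpd]; field_simp
  have hnp' : (n : ℝ) * p' = 6 * L := by rw [hp'd]; field_simp
  have he0 := Real.exp_pos (-t)
  have he1 : Real.exp (-t) ≤ 1 := Real.exp_le_one_iff.2 (by linarith)
  -- first term
  have t1 : 4 / (n * (1 - p) ^ (n - 1)) ≤ 4 * Real.exp (1 - (1 - a) * L) := by
    have h1 := pow_lower n p hp0 hp (by rw [hnp]; exact hsq)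
    rw [hnp] at h1
    have h2 : Real.exp ((1 - a) * L - 1) ≤ n * (1 - p) ^ (n - 1) := by
      have e : Real.exp ((1 - a) * L - 1) = n * Real.exp (-(a * L) - 1) := by
        have : (n : ℝ) = Real.exp L := by rw [hL, Real.exp_log hn0]
        rw [this, ← Real.exp_add]
        congr 1
        ring
      rw [e]
      exact mul_le_mul_of_nonneg_left h1 hn0.le
    have h3 : 0 < Real.exp ((1 - a) * L - 1) := Real.exp_pos _
    calc 4 / (n * (1 - p) ^ (n - 1)) ≤ 4 / Real.exp ((1 - a) * L - 1) :=
          div_le_div_of_nonneg_left (by norm_num) h3 h2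
      _ = 4 * Real.exp (1 - (1 - a) * L) := by
          rw [div_eq_mul_inv, ← Real.exp_neg]
          congr 2
          ring
  -- second term
  have t2 : 8 * p = 8 * (a * (L / n)) := by rw [hpd]; ring
  have hc : ((n - 1 : ℕ) : ℝ) = n - 1 := by
    rw [Nat.cast_sub (by omega)]; norm_num
  have hc2 : ((n - 2 : ℕ) : ℝ) = n - 2 := by
    rw [Nat.cast_sub (by omega)]; norm_num
  have hcL : c * L ≤ 1 * L := mul_le_mul_of_nonneg_right hc1 hL0
  -- third term
  have t3 : Real.exp (k - p' * (1 - Real.exp (-1)) * ((n - 1 : ℕ) : ℝ)) ≤ Real.exp (0 - 1 * L) := by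
    apply Real.exp_le_exp.2
    rw [hc]
    have h1 : Real.exp (-1) ≤ 1 / 2 := by
      rw [Real.exp_neg, inv_eq_one_div]
      apply one_div_le_one_div_of_le (by norm_num)
      linarith [Real.add_one_le_exp (1 : ℝ)]
    have h2 : 4 * L ≤ p' * (n - 1) := by
      have e : p' * (n - 1) = 6 * L - p' := by rw [mul_sub, mul_one, mul_comm, hnp']
      rw [e]
      have : p' ≤ 2 * L := by
        rw [hp'd, div_le_iff₀ hn0]
        nlinarith
      linarith
    have h3 : 2 * L ≤ p' * (1 - Real.exp (-1)) * (n - 1) := by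
      have e : p' * (1 - Real.exp (-1)) * (n - 1) = (p' * (n - 1)) * (1 - Real.exp (-1)) := by ring
      rw [e]
      nlinarith
    linarith
  -- fourth term
  have t4 : Real.exp (t * k - p * (1 - Real.exp (-t)) * ((n - 2 : ℕ) : ℝ)) ≤
      Real.exp 2 * Real.exp (-((a * (1 - Real.exp (-t)) - c * t) * L)) := by
    rw [← Real.exp_add]
    apply Real.exp_le_exp.2
    rw [hc2]
    have e : p * (1 - Real.exp (-t)) * (n - 2) =
        a * L * (1 - Real.exp (-t)) - 2 * (p * (1 - Real.exp (-t))) := by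
      rw [← hnp]; ring
    rw [e]
    have h1 : p * (1 - Real.exp (-t)) ≤ 1 := by nlinarith
    have h2 : t * k ≤ t * (c * L) := mul_le_mul_of_nonneg_left hk ht
    nlinarith
  have t4' : 4 * (n * p') * Real.exp (t * k - p * (1 - Real.exp (-t)) * ((n - 2 : ℕ) : ℝ)) ≤
      24 * Real.exp 2 * (L ^ 1 * Real.exp (-((a * (1 - Real.exp (-t)) - c * t) * L))) := by
    rw [hnp', pow_one]
    refine (mul_le_mul_of_nonneg_left t4 (by positivity)).trans (le_of_eq ?_)
    ring
  linarith

theorem lower (c : ℝ) (hc : c < 1) (k : ℕ → ℕ)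
    (hk : ∀ᶠ n : ℕ in atTop, (k n : ℝ) ≤ c * Real.log n) :
    Tendsto (fun n => (costLaw n).real {ω | (mutualGraph (k n) ω).Connected}) atTop (𝓝 0) := by
  set c' : ℝ := max c 0 with hc'
  have hc'1 : c' < 1 := max_lt hc one_pos
  have hc'0 : 0 ≤ c' := le_max_right _ _
  have hcc' : c ≤ c' := le_max_left _ _
  set a : ℝ := (1 + c') / 2 with ha
  have ha0 : 0 < a := by linarith
  have ha1 : a < 1 := by linarith
  have hac : c' < a := by linarith
  set t : ℝ := (a - c') / (2 * a) with ht
  have ht0 : 0 < t := div_pos (by linarith) (by linarith)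
  have ht1 : t ≤ 1 := by rw [ht, div_le_one (by linarith)]; linarith
  have hat : a * t = (a - c') / 2 := by rw [ht]; field_simp
  have he : t - t ^ 2 ≤ 1 - Real.exp (-t) := by
    have h := Real.abs_exp_sub_one_sub_id_le (x := -t) (by rw [abs_neg, abs_of_pos ht0]; exact ht1)
    have := (abs_le.1 h).2
    nlinarith
  have hγ : 0 < a * (1 - Real.exp (-t)) - c' * t := by
    have h1 : a * (t - t ^ 2) ≤ a * (1 - Real.exp (-t)) := mul_le_mul_of_nonneg_left he ha0.le
    have h3 : 0 < (a - c') / 2 * t := mul_pos (by linarith) ht0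
    have h4 : a * (t - t ^ 2) - c' * t = (a - c' - a * t) * t := by ring
    have h5 : (a - c' - a * t) * t = (a - c') / 2 * t := by rw [hat]; ring
    linarith
  have herr : Tendsto (fun n : ℕ => 4 * Real.exp (1 - (1 - a) * Real.log n) +
      8 * (a * (Real.log n / n)) + 2 * Real.exp (0 - 1 * Real.log n) +
      24 * Real.exp 2 * (Real.log n ^ 1 *
        Real.exp (-((a * (1 - Real.exp (-t)) - c' * t) * Real.log n)))) atTop (𝓝 0) := by
    have l1 := (tendsto_exp_log 1 (1 - a) (by linarith)).const_mul 4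
    have l2 := (tendsto_log_div.const_mul a).const_mul 8
    have l3 := (tendsto_exp_log 0 1 one_pos).const_mul 2
    have l4 := (tendsto_log_pow 1 _ hγ).const_mul (24 * Real.exp 2)
    have := ((l1.add l2).add l3).add l4
    simpa using this
  have e1 : ∀ᶠ n : ℕ in atTop, a * Real.log n / n + 6 * Real.log n / n < 1 := by
    have h := tendsto_log_div.const_mul (a + 6)
    rw [mul_zero] at h
    filter_upwards [h.eventually_lt_const one_pos] with n hn
    have : a * Real.log n / n + 6 * Real.log n / n = (a + 6) * (Real.log n / n) := by ring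
    rw [this]
    exact hn
  have e2 : ∀ᶠ n : ℕ in atTop, a * Real.log n / n ≤ 1 / 2 := by
    have h := tendsto_log_div.const_mul a
    rw [mul_zero] at h
    filter_upwards [h.eventually_le_const (show (0 : ℝ) < 1 / 2 by norm_num)] with n hn
    rwa [mul_div_assoc]
  have e3 : ∀ᶠ n : ℕ in atTop, 2 * (a * Real.log n) * (a * Real.log n / n) ≤ 1 := by
    have h := (tendsto_log_pow 2 1 one_pos).const_mul (2 * a ^ 2)
    rw [mul_zero] at h
    filter_upwards [h.eventually_le_const one_pos, eventually_ge_atTop 1] with n hn hn1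
    have hn0 : (0 : ℝ) < n := by exact_mod_cast hn1
    refine le_trans (le_of_eq ?_) hn
    rw [one_mul, Real.exp_neg, Real.exp_log hn0]
    ring
  refine tendsto_of_tendsto_of_tendsto_of_le_of_le' tendsto_const_nhds herr ?_ ?_
  · exact Eventually.of_forall fun n => measureReal_nonneg
  · filter_upwards [hk, e1, e2, e3, eventually_ge_atTop 3] with n hkn h1 h2 h3 hn
    have hL0 : 0 ≤ Real.log n := Real.log_nonneg (by exact_mod_cast (by omega : 1 ≤ n))
    exact low_one n hn (k n) a c' t ht0.le ha0 hc'1.le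
      (hkn.trans (mul_le_mul_of_nonneg_right hcc' hL0)) h1 h2 h3

end Pool.Agent.X139.MG
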