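import Pool.Agent.X139.MG.Det
import Pool.Agent.X139.MG.Fin

/-!
# Upper part, finite estimates
-/

set_option autoImplicit false

namespace Pool.Agent.X139.MG

open Finset MeasureTheory ProbabilityTheory
open scoped Classical

variable {n : ℕ} {w : Fin 3 → ℝ}

/-- number of neighbours with label `0` -/
noncomputable def d0 (x : Sym2 (Fin n) → Fin 3) (v : Fin n) : ℕ :=
  (univ.filter (fun l : Fin n => l ≠ v ∧ x s(v, l) = 0)).card

/-- the edges from `v` to `T` -/
noncomputable def star (v : Fin n) (T : Finset (Fin n)) : Finset (Sym2 (Fin n)) :=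
  T.image (fun l => s(v, l))

/-- the edges from `S` to `T` -/
noncomputable def cutE (S T : Finset (Fin n)) : Finset (Sym2 (Fin n)) :=
  (S ×ˢ T).image (fun q => s(q.1, q.2))

lemma star_prod (v : Fin n) (T : Finset (Fin n)) (f : Sym2 (Fin n) → ℝ) :
    ∏ e ∈ star v T, f e = ∏ l ∈ T, f s(v, l) := by
  unfold star
  rw [prod_image]
  intro a _ b _ h
  exact Sym2.congr_right.1 h

lemma star_card (v : Fin n) (T : Finset (Fin n)) : (star v T).card = T.card := by
  unfold star
  rw [card_image_of_injective]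
  intro a b h
  exact Sym2.congr_right.1 h

lemma cut_inj {S T : Finset (Fin n)} (h : Disjoint S T) :
    Set.InjOn (fun q : Fin n × Fin n => s(q.1, q.2)) (S ×ˢ T : Finset (Fin n × Fin n)) := by
  rintro ⟨a, b⟩ h1 ⟨c, d⟩ h2 he
  rw [mem_coe, mem_product] at h1 h2
  rcases Sym2.eq_iff.1 he with ⟨h3, h4⟩ | ⟨h3, h4⟩
  · simp only at h3 h4
    rw [h3, h4]
  · simp only at h3 h4
    exact absurd (h3 ▸ h1.1) (fun h' => disjoint_left.1 h h' h2.2)

lemma cut_prod {S T : Finset (Fin n)} (h : Disjoint S T) (f : Sym2 (Fin n) → ℝ) :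
    ∏ e ∈ cutE S T, f e = ∏ q ∈ S ×ˢ T, f s(q.1, q.2) := by
  unfold cutE
  rw [prod_image (cut_inj h)]

lemma cut_card {S T : Finset (Fin n)} (h : Disjoint S T) :
    (cutE S T).card = S.card * T.card := by
  unfold cutE
  rw [card_image_of_injOn (cut_inj h), card_product]

lemma prod_pow_count {α : Type*} (T : Finset α) (P : α → Prop) [DecidablePred P] (c : ℝ) :
    ∏ l ∈ T, (if P l then c else 1) = c ^ (T.filter P).card := by
  rw [prod_ite, prod_const_one, mul_one, prod_const]

/-- the factor function of the label `0` -/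
noncomputable def g0 (c : ℝ) (a : Fin 3) : ℝ := if a = 0 then c else 1

lemma sum_g0 (hw1 : ∑ a, w a = 1) (c : ℝ) : ∑ a, w a * g0 c a = 1 + w 0 * (c - 1) := by
  rw [Fin.sum_univ_three] at hw1 ⊢
  unfold g0
  have h1 : (1 : Fin 3) ≠ 0 := by decide
  have h2 : (2 : Fin 3) ≠ 0 := by decide
  rw [if_pos rfl, if_neg h1, if_neg h2]
  linarith

lemma pow_le_exp {u : ℝ} (h : 0 ≤ 1 + u) (N : ℕ) : (1 + u) ^ N ≤ Real.exp (u * N) := by
  have h1 : 1 + u ≤ Real.exp u := by linarith [Real.add_one_le_exp u]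
  calc (1 + u) ^ N ≤ (Real.exp u) ^ N := pow_le_pow_left₀ h h1 N
    _ = Real.exp (u * N) := by rw [← Real.exp_nat_mul, mul_comm]

/-- Markov's inequality for an event with an exponential bound -/
lemma ite_le_exp {P : Prop} [Decidable P] {u : ℝ} (h : P → 0 ≤ u) :
    (if P then (1 : ℝ) else 0) ≤ Real.exp u := by
  split_ifs with hP
  · exact Real.one_le_exp (h hP)
  · positivity

lemma star_g0 (x : Sym2 (Fin n) → Fin 3) (v : Fin n) (T : Finset (Fin n)) (t : ℝ) :
    ∏ e ∈ star v T, g0 (Real.exp t) (x e) =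
      Real.exp (t * (T.filter (fun l => x s(v, l) = 0)).card) := by
  rw [star_prod]
  unfold g0
  rw [prod_pow_count, ← Real.exp_nat_mul, mul_comm]

lemma cut_g0 (x : Sym2 (Fin n) → Fin 3) (S T : Finset (Fin n)) (h : Disjoint S T) (t : ℝ) :
    ∏ e ∈ cutE S T, g0 (Real.exp t) (x e) =
      Real.exp (t * ((S ×ˢ T).filter (fun q => x s(q.1, q.2) = 0)).card) := by
  rw [cut_prod h]
  unfold g0
  rw [prod_pow_count, ← Real.exp_nat_mul, mul_comm]

/-- large degree -/
lemma bound0 (hw : ∀ a, 0 ≤ w a) (hw1 : ∑ a, w a = 1) (v : Fin n) (D : ℕ) :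
    EE w (fun x => if D < d0 x v then 1 else 0) ≤ Real.exp (-D + 2 * (w 0 * n)) := by
  have h1 : ∀ x : Sym2 (Fin n) → Fin 3, (if D < d0 x v then (1 : ℝ) else 0) ≤
      Real.exp (-D) * ∏ e ∈ star v (univ.erase v), g0 (Real.exp 1) (x e) := by
    intro x
    have e1 : ((univ.erase v).filter (fun l => x s(v, l) = 0)).card = d0 x v := by
      unfold d0
      congr 1
      ext l
      simp
    rw [star_g0, ← Real.exp_add, e1]
    apply ite_le_exp
    intro h
    have : (D : ℝ) < d0 x v := by exact_mod_cast h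
    linarith
  refine (EE_mono hw h1).trans ?_
  rw [EE_const_mul, EE_one' hw1, sum_g0 hw1, star_card, Real.exp_add]
  apply mul_le_mul_of_nonneg_left _ (Real.exp_pos _).le
  have he : Real.exp 1 ≤ 3 := by linarith [Real.exp_one_lt_d9]
  have he1 : 1 ≤ Real.exp 1 := Real.one_le_exp zero_le_one
  have h0 := hw 0
  refine (pow_le_exp (by nlinarith) _).trans ?_
  apply Real.exp_le_exp.2
  have hc : ((univ.erase v : Finset (Fin n)).card : ℝ) ≤ n := by
    have := card_le_univ (univ.erase v : Finset (Fin n))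
    rw [Fintype.card_fin] at this
    exact_mod_cast this
  have hc0 : (0 : ℝ) ≤ ((univ.erase v : Finset (Fin n)).card : ℝ) := Nat.cast_nonneg _
  calc w 0 * (Real.exp 1 - 1) * ((univ.erase v : Finset (Fin n)).card : ℝ)
      ≤ w 0 * 2 * n := by
        apply mul_le_mul _ hc hc0 (by positivity)
        apply mul_le_mul_of_nonneg_left _ h0
        linarith
    _ = 2 * (w 0 * n) := by ring

/-- few edges between `S` and its complement -/
lemma bound1 (hw : ∀ a, 0 ≤ w a) (hw1 : ∑ a, w a = 1) (S : Finset (Fin n)) (K : ℕ) (t : ℝ)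
    (ht : 0 ≤ t) :
    EE w (fun x => if ((S ×ˢ Sᶜ).filter (fun q : Fin n × Fin n => x s(q.1, q.2) = 0)).card ≤ K
      then 1 else 0) ≤
      Real.exp (t * K - w 0 * (1 - Real.exp (-t)) * (S.card * Sᶜ.card)) := by
  have hd : Disjoint S Sᶜ := disjoint_compl_right
  have h1 : ∀ x : Sym2 (Fin n) → Fin 3,
      (if ((S ×ˢ Sᶜ).filter (fun q : Fin n × Fin n => x s(q.1, q.2) = 0)).card ≤ K
        then (1 : ℝ) else 0) ≤
      Real.exp (t * K) * ∏ e ∈ cutE S Sᶜ, g0 (Real.exp (-t)) (x e) := by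
    intro x
    rw [cut_g0 x S Sᶜ hd, ← Real.exp_add]
    apply ite_le_exp
    intro h
    have : ((((S ×ˢ Sᶜ).filter (fun q : Fin n × Fin n => x s(q.1, q.2) = 0)).card : ℕ) : ℝ) ≤ K := by
      exact_mod_cast h
    nlinarith
  refine (EE_mono hw h1).trans ?_
  rw [EE_const_mul, EE_one' hw1, sum_g0 hw1, cut_card hd, sub_eq_add_neg (t * (K : ℝ)),
    Real.exp_add]
  apply mul_le_mul_of_nonneg_left _ (Real.exp_pos _).le
  have he1 : Real.exp (-t) ≤ 1 := Real.exp_le_one_iff.2 (by linarith)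
  have he0 := Real.exp_pos (-t)
  have h0 := hw 0
  have h01 : w 0 ≤ 1 := by
    rw [Fin.sum_univ_three] at hw1
    linarith [hw 1, hw 2]
  refine (pow_le_exp (by nlinarith) _).trans ?_
  apply Real.exp_le_exp.2
  push_cast
  apply le_of_eq
  ring

/-- the factor function which forces the label `0` -/
noncomputable def f0 (a : Fin 3) : ℝ := if a = 0 then 1 else 0

lemma sum_f0 : ∑ a, w a * f0 a = w 0 := by
  rw [Fin.sum_univ_three]
  unfold f0
  have h1 : (1 : Fin 3) ≠ 0 := by decide
  have h2 : (2 : Fin 3) ≠ 0 := by decide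
  rw [if_pos rfl, if_neg h1, if_neg h2]
  ring

/-- `v` is adjacent to all the vertices of `B`, which have large degrees -/
lemma bound2 (hw : ∀ a, 0 ≤ w a) (hw1 : ∑ a, w a = 1) (v : Fin n) (B : Finset (Fin n))
    (hv : v ∉ B) (k : ℕ) (t : ℝ) (ht : 0 ≤ t) :
    EE w (fun x => if ∀ b ∈ B, x s(v, b) = 0 ∧ k < d0 x b then 1 else 0) ≤
      w 0 ^ B.card * Real.exp (-(t * (B.card * (k + 1 - B.card))) +
        w 0 * (Real.exp t - 1) * (B.card * n)) := by
  set T : Finset (Fin n) := (insert v B)ᶜ with hT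
  have hd : Disjoint B T := by
    rw [hT, disjoint_left]
    intro b hb hb'
    rw [mem_compl, mem_insert] at hb'
    exact hb' (Or.inr hb)
  have hdd : Disjoint (star v B) (cutE B T) := by
    rw [disjoint_left]
    intro e he he'
    unfold star at he
    unfold cutE at he'
    rw [mem_image] at he he'
    obtain ⟨b, hb, rfl⟩ := he
    obtain ⟨⟨c, d⟩, hq, hq'⟩ := he'
    rw [mem_product, hT, mem_compl, mem_insert] at hq
    rcases Sym2.eq_iff.1 hq' with ⟨h3, h4⟩ | ⟨h3, h4⟩
    · simp only at h3 h4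
      exact hv (h3 ▸ hq.1)
    · simp only at h3 h4
      exact hq.2 (Or.inl h4)
  have h1 : ∀ x : Sym2 (Fin n) → Fin 3,
      (if ∀ b ∈ B, x s(v, b) = 0 ∧ k < d0 x b then (1 : ℝ) else 0) ≤
      Real.exp (-(t * (B.card * (k + 1 - B.card)))) *
        ((∏ e ∈ star v B, f0 (x e)) * ∏ e ∈ cutE B T, g0 (Real.exp t) (x e)) := by
    intro x
    rw [cut_g0 x B T hd, star_prod]
    by_cases h : ∀ b ∈ B, x s(v, b) = 0 ∧ k < d0 x b
    · rw [if_pos h]
      have e1 : ∏ l ∈ B, f0 (x s(v, l)) = 1 := by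
        apply prod_eq_one
        intro b hb
        unfold f0
        rw [if_pos (h b hb).1]
      rw [e1, one_mul, ← Real.exp_add]
      apply Real.one_le_exp
      have hcount : B.card * (k + 1 - B.card) ≤
          ((B ×ˢ T).filter (fun q : Fin n × Fin n => x s(q.1, q.2) = 0)).card := by
        have e : ((B ×ˢ T).filter (fun q : Fin n × Fin n => x s(q.1, q.2) = 0)).card =
            ∑ i ∈ B, (T.filter (fun j => x s(i, j) = 0)).card := by
          rw [card_filter, sum_product]
          refine sum_congr rfl fun i _ => ?_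
          rw [card_filter]
        rw [e, ← smul_eq_mul, ← sum_const]
        apply sum_le_sum
        intro b hb
        have hk := (h b hb).2
        unfold d0 at hk
        have hsub : (univ.filter (fun l : Fin n => l ≠ b ∧ x s(b, l) = 0)) ⊆
            (T.filter (fun j => x s(b, j) = 0)) ∪ insert v (B.erase b) := by
          intro l hl
          rw [mem_filter] at hl
          rw [mem_union, mem_filter, hT, mem_compl, mem_insert, mem_insert, mem_erase]
          by_cases hlv : l = v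
          · exact Or.inr (Or.inl hlv)
          · by_cases hlB : l ∈ B
            · exact Or.inr (Or.inr ⟨hl.2.1, hlB⟩)
            · exact Or.inl ⟨fun h => h.elim hlv hlB, hl.2.2⟩
        have h3 := (card_le_card hsub).trans (card_union_le _ _)
        have h4 : (insert v (B.erase b)).card ≤ B.card := by
          have h5 := card_insert_le v (B.erase b)
          rw [card_erase_of_mem hb] at h5
          have : 0 < B.card := card_pos.2 ⟨b, hb⟩
          omega
        omega
      have h5 : (B.card : ℝ) * (k + 1 - B.card) ≤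
          (((B ×ˢ T).filter (fun q : Fin n × Fin n => x s(q.1, q.2) = 0)).card : ℝ) := by
        refine le_trans ?_ (Nat.cast_le.2 hcount)
        push_cast
        apply mul_le_mul_of_nonneg_left _ (Nat.cast_nonneg _)
        have h6 : (k + 1 : ℕ) ≤ (k + 1 - B.card) + B.card := by omega
        have h7 : ((k + 1 : ℕ) : ℝ) ≤ (((k + 1 - B.card) + B.card : ℕ) : ℝ) := by exact_mod_cast h6
        push_cast at h7
        linarith
      nlinarith [mul_le_mul_of_nonneg_left h5 ht]
    · rw [if_neg h]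
      apply mul_nonneg (Real.exp_pos _).le
      apply mul_nonneg _ (Real.exp_pos _).le
      apply prod_nonneg
      intro b _
      unfold f0
      split_ifs <;> norm_num
  refine (EE_mono hw h1).trans ?_
  rw [EE_const_mul, EE_two hw1 _ _ hdd, sum_g0 hw1, sum_f0, star_card, cut_card hd, Real.exp_add]
  have he1 : 1 ≤ Real.exp t := Real.one_le_exp ht
  have h0 := hw 0
  have hp : (1 + w 0 * (Real.exp t - 1)) ^ (B.card * T.card) ≤
      Real.exp (w 0 * (Real.exp t - 1) * (B.card * n)) := by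
    refine (pow_le_exp (by nlinarith) _).trans ?_
    apply Real.exp_le_exp.2
    apply mul_le_mul_of_nonneg_left _ (mul_nonneg h0 (by linarith))
    push_cast
    apply mul_le_mul_of_nonneg_left _ (Nat.cast_nonneg _)
    have := card_le_univ T
    rw [Fintype.card_fin] at this
    exact_mod_cast this
  calc Real.exp (-(t * (B.card * (k + 1 - B.card)))) *
        (w 0 ^ B.card * (1 + w 0 * (Real.exp t - 1)) ^ (B.card * T.card))
      ≤ Real.exp (-(t * (B.card * (k + 1 - B.card)))) *
        (w 0 ^ B.card * Real.exp (w 0 * (Real.exp t - 1) * (B.card * n))) := by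
        apply mul_le_mul_of_nonneg_left _ (Real.exp_pos _).le
        exact mul_le_mul_of_nonneg_left hp (pow_nonneg h0 _)
    _ = _ := by ring

lemma one_le_sum_ite {α : Type*} (s : Finset α) (P : α → Prop) [DecidablePred P]
    (h : ∃ i ∈ s, P i) : (1 : ℝ) ≤ ∑ i ∈ s, if P i then 1 else 0 := by
  have h0 : ∀ i ∈ s, (0 : ℝ) ≤ if P i then 1 else 0 := fun i _ => by split_ifs <;> norm_num
  obtain ⟨i, hi, hP⟩ := h
  refine le_trans ?_ (single_le_sum h0 hi)
  rw [if_pos hP]

lemma sum_ite_nonneg {α : Type*} (s : Finset α) (P : α → Prop) [DecidablePred P] :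
    (0 : ℝ) ≤ ∑ i ∈ s, if P i then 1 else 0 :=
  sum_nonneg fun i _ => by split_ifs <;> norm_num

/-- the bad event of the upper part -/
def BadU (k D M m0 : ℕ) (x : Sym2 (Fin n) → Fin 3) : Prop :=
  (∃ v ∈ (univ : Finset (Fin n)), D < d0 x v) ∨
  (∃ S ∈ (univ : Finset (Finset (Fin n))).filter (fun S => S.Nonempty ∧ 2 * S.card ≤ n),
    ((S ×ˢ Sᶜ).filter (fun q : Fin n × Fin n => x s(q.1, q.2) = 0)).card ≤ M * S.card) ∨
  (∃ q ∈ ((univ : Finset (Fin n)) ×ˢ (univ : Finset (Fin n)).powersetCard (m0 + 1)).filter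
    (fun q => q.1 ∉ q.2), ∀ b ∈ q.2, x s(q.1, b) = 0 ∧ k < d0 x b)

theorem up_fin (hw : ∀ a, 0 ≤ w a) (hw1 : ∑ a, w a = 1) (k D M m0 : ℕ) (t t₁ : ℝ) (ht : 0 ≤ t)
    (ht₁ : 0 ≤ t₁) :
    EE w (fun x : Sym2 (Fin n) → Fin 3 => if BadU k D M m0 x then 1 else 0) ≤
      n * Real.exp (-D + 2 * (w 0 * n)) +
      (∑ S ∈ (univ : Finset (Finset (Fin n))).filter (fun S => S.Nonempty ∧ 2 * S.card ≤ n),
        Real.exp (t * (M * S.card) - w 0 * (1 - Real.exp (-t)) * (S.card * Sᶜ.card))) +
      n * n ^ (m0 + 1) * (w 0 ^ (m0 + 1) * Real.exp (-(t₁ * ((m0 + 1) * (k + 1 - (m0 + 1)))) +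
        w 0 * (Real.exp t₁ - 1) * ((m0 + 1) * n))) := by
  set F1 : Finset (Finset (Fin n)) :=
    (univ : Finset (Finset (Fin n))).filter (fun S => S.Nonempty ∧ 2 * S.card ≤ n) with hF1
  set F2 : Finset (Fin n × Finset (Fin n)) :=
    ((univ : Finset (Fin n)) ×ˢ (univ : Finset (Fin n)).powersetCard (m0 + 1)).filter
    (fun q => q.1 ∉ q.2) with hF2
  have h1 : ∀ x : Sym2 (Fin n) → Fin 3, (if BadU k D M m0 x then (1 : ℝ) else 0) ≤
      (∑ v ∈ (univ : Finset (Fin n)), if D < d0 x v then (1 : ℝ) else 0) +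
      (∑ S ∈ F1, if ((S ×ˢ Sᶜ).filter (fun q : Fin n × Fin n => x s(q.1, q.2) = 0)).card ≤
        M * S.card then (1 : ℝ) else 0) +
      (∑ q ∈ F2, if ∀ b ∈ q.2, x s(q.1, b) = 0 ∧ k < d0 x b then (1 : ℝ) else 0) := by
    intro x
    have b1 := sum_ite_nonneg (univ : Finset (Fin n)) (fun v => D < d0 x v)
    have b2 := sum_ite_nonneg F1 (fun S =>
      ((S ×ˢ Sᶜ).filter (fun q : Fin n × Fin n => x s(q.1, q.2) = 0)).card ≤ M * S.card)
    have b3 := sum_ite_nonneg F2 (fun q => ∀ b ∈ q.2, x s(q.1, b) = 0 ∧ k < d0 x b)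
    by_cases h : BadU k D M m0 x
    · rw [if_pos h]
      rcases h with h | h | h
      · have a1 := one_le_sum_ite (univ : Finset (Fin n)) (fun v => D < d0 x v) h
        linarith
      · have a2 := one_le_sum_ite F1 (fun S =>
          ((S ×ˢ Sᶜ).filter (fun q : Fin n × Fin n => x s(q.1, q.2) = 0)).card ≤ M * S.card) h
        linarith
      · have a3 := one_le_sum_ite F2 (fun q => ∀ b ∈ q.2, x s(q.1, b) = 0 ∧ k < d0 x b) h
        linarith
    · rw [if_neg h]
      linarith
  refine (EE_mono hw h1).trans ?_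
  rw [EE_add, EE_add, EE_sum, EE_sum, EE_sum]
  refine add_le_add (add_le_add ?_ ?_) ?_
  · calc ∑ v : Fin n, EE w (fun x => if D < d0 x v then (1 : ℝ) else 0)
        ≤ ∑ v : Fin n, Real.exp (-D + 2 * (w 0 * n)) := sum_le_sum fun v _ => bound0 hw hw1 v D
      _ = _ := by rw [sum_const, card_univ, Fintype.card_fin, nsmul_eq_mul]
  · refine sum_le_sum fun S _ => ?_
    refine (bound1 hw hw1 S (M * S.card) t ht).trans ?_
    push_cast
    exact le_rfl
  · calc ∑ q ∈ F2, EE w (fun x => if ∀ b ∈ q.2, x s(q.1, b) = 0 ∧ k < d0 x b then (1 : ℝ) else 0)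
        ≤ ∑ q ∈ F2, (w 0 ^ (m0 + 1) * Real.exp (-(t₁ * ((m0 + 1) * (k + 1 - (m0 + 1)))) +
          w 0 * (Real.exp t₁ - 1) * ((m0 + 1) * n))) := by
          refine sum_le_sum fun q hq => ?_
          rw [hF2, mem_filter, mem_product, mem_powersetCard] at hq
          have := bound2 hw hw1 q.1 q.2 hq.2 k t₁ ht₁
          rw [hq.1.2.2] at this
          push_cast at this
          exact this
      _ = (F2.card : ℝ) * (w 0 ^ (m0 + 1) * Real.exp (-(t₁ * ((m0 + 1) * (k + 1 - (m0 + 1)))) +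
          w 0 * (Real.exp t₁ - 1) * ((m0 + 1) * n))) := by rw [sum_const, nsmul_eq_mul]
      _ ≤ _ := by
          apply mul_le_mul_of_nonneg_right _
            (mul_nonneg (pow_nonneg (hw 0) _) (Real.exp_pos _).le)
          have c1 : F2.card ≤ n * n ^ (m0 + 1) := by
            refine (card_filter_le _ _).trans ?_
            rw [card_product, card_univ, Fintype.card_fin, card_powersetCard, card_univ,
              Fintype.card_fin]
            exact Nat.mul_le_mul_left _ (Nat.choose_le_pow _ _)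
          exact_mod_cast c1

end Pool.Agent.X139.MG
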